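import Mathlib

set_option autoImplicit false

/-! # Amenability of discrete groups by finitely additive measures -/

namespace Pool.Agent.W5h69.Amen

open Set

/-- A (discrete) group is amenable: there is a finitely additive probability measure on all its
subsets that is invariant under left translations. -/
def Amenable (H : Type*) [Group H] : Prop :=
  ∃ μ : Set H → ℝ, (∀ A, 0 ≤ μ A) ∧ μ univ = 1 ∧
    (∀ A B, Disjoint A B → μ (A ∪ B) = μ A + μ B) ∧
    ∀ (h : H) (A : Set H), μ ((fun x => h * x) '' A) = μ A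

/-- sanity check: the trivial group is amenable -/
lemma amenable_unit : Amenable Unit := by
  classical
  refine ⟨fun A => if () ∈ A then 1 else 0, fun A => by positivity, by simp, ?_, ?_⟩
  · intro A B h
    by_cases h1 : () ∈ A
    · have h2 : () ∉ B := fun h2 => disjoint_left.1 h h1 h2
      simp [h1, h2]
    · by_cases h2 : () ∈ B <;> simp [h1, h2]
  · intro h A
    have e : (fun x => h * x) '' A = A := by
      ext x
      constructor
      · rintro ⟨y, hy, _⟩; exact hy
      · intro hx; exact ⟨x, hx, rfl⟩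
    rw [e]

variable {H : Type*} [Group H]

lemma exists_equivariant (L : Subgroup H) : ∃ ℓ : H → L, ∀ (l : L) (h : H), ℓ (l * h) = l * ℓ h := by
  classical
  let r : H → H := fun h => Quotient.out (Quotient.mk (QuotientGroup.rightRel L) h)
  have hr : ∀ h, h * (r h)⁻¹ ∈ L := by
    intro h
    have h1 : (QuotientGroup.rightRel L) (r h) h := Quotient.exact (Quotient.out_eq _)
    rw [QuotientGroup.rightRel_apply] at h1
    exact h1
  refine ⟨fun h => ⟨h * (r h)⁻¹, hr h⟩, ?_⟩
  intro l h
  have e : r (l * h) = r h := by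
    show Quotient.out _ = Quotient.out _
    congr 1
    apply Quotient.sound
    show (QuotientGroup.rightRel L) (l * h) h
    rw [QuotientGroup.rightRel_apply]
    have : h * ((l : H) * h)⁻¹ = (l : H)⁻¹ := by group
    rw [this]
    exact L.inv_mem l.2
  apply Subtype.ext
  show (l * h) * (r (l * h))⁻¹ = l * (h * (r h)⁻¹)
  rw [e, mul_assoc]

/-- push a mean forward along a map from a subgroup -/
theorem exists_mean {X : Type*} (hH : Amenable H) (L : Subgroup H) (w : L → X) :
    ∃ ν : Set X → ℝ, ν univ = 1 ∧ (∀ A B, Disjoint A B → ν (A ∪ B) = ν A + ν B) ∧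
      ∀ (l : L) (T : X → X), (∀ l' : L, w (l * l') = T (w l')) →
        ∀ A, ν (T ⁻¹' A) = ν A := by
  obtain ⟨ℓ, hℓ⟩ := exists_equivariant L
  obtain ⟨μ, -, h1, h2, h3⟩ := hH
  refine ⟨fun A => μ {h | w (ℓ h) ∈ A}, ?_, ?_, ?_⟩
  · simpa using h1
  · intro A B hAB
    have : {h | w (ℓ h) ∈ A ∪ B} = {h | w (ℓ h) ∈ A} ∪ {h | w (ℓ h) ∈ B} := rfl
    show μ {h | w (ℓ h) ∈ A ∪ B} = _
    rw [this]
    apply h2
    rw [disjoint_left]
    intro h ha hb
    exact disjoint_left.1 hAB ha hb
  · intro l T hT A
    have e : {h | w (ℓ h) ∈ A} = (fun x => (l : H) * x) '' {h | w (ℓ h) ∈ T ⁻¹' A} := by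
      ext x
      simp only [mem_ofPred_eq, mem_image, mem_preimage]
      constructor
      · intro hx
        refine ⟨(l : H)⁻¹ * x, ?_, by group⟩
        rw [← hT, ← hℓ]
        convert hx using 3
        group
      · rintro ⟨y, hy, rfl⟩
        rw [hℓ, hT]
        exact hy
    show μ {h | w (ℓ h) ∈ T ⁻¹' A} = μ {h | w (ℓ h) ∈ A}
    rw [e, h3]

end Pool.Agent.W5h69.Amen
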