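import Mathlib

set_option autoImplicit false

/-! # Order automorphisms of the line preserving Cantor type sets -/

namespace Pool.Agent.W5h69.Line

open Set

/-- period two copies of the middle third Cantor set -/
def KC : Set ℝ := {x | ∃ n : ℤ, x - 2 * n ∈ cantorSet}

lemma cantor_bounds {x : ℝ} (h : x ∈ cantorSet) : 0 ≤ x ∧ x ≤ 1 :=
  cantorSet_subset_unitInterval h

lemma cantor_step (x : ℝ) : x ∈ cantorSet ↔ (3 * x ∈ cantorSet ∨ 3 * x - 2 ∈ cantorSet) := by
  conv_lhs => rw [cantorSet_eq_union_halves]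
  constructor
  · rintro (⟨y, hy, rfl⟩ | ⟨y, hy, rfl⟩)
    · left; convert hy using 1; ring
    · right; convert hy using 1; ring
  · rintro (h | h)
    · left; exact ⟨_, h, by ring⟩
    · right; exact ⟨_, h, by ring⟩

/-- membership for points of a period -/
lemma KC_iff {x : ℝ} {n : ℤ} (h0 : 0 ≤ x - 2 * n) (h1 : x - 2 * n < 2) :
    x ∈ KC ↔ x - 2 * n ∈ cantorSet := by
  constructor
  · rintro ⟨m, hm⟩
    obtain ⟨b1, b2⟩ := cantor_bounds hm
    have e : m = n := by
      have c1 : (m:ℝ) < n + 1 := by linarith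
      have c2 : (n:ℝ) < m + 1 := by linarith
      have c1' : m < n + 1 := by exact_mod_cast c1
      have c2' : n < m + 1 := by exact_mod_cast c2
      omega
    rwa [e] at hm
  · intro h; exact ⟨n, h⟩

lemma cantor_no_interval (n : ℕ) : ∀ a b : ℝ, (∀ y, a < y → y < b → y ∈ cantorSet) → a < b →
    b - a ≤ (1 / 3) ^ n := by
  induction n with
  | zero =>
    intro a b h hab
    simp only [pow_zero]
    have h1 : 0 ≤ a := by
      by_contra hc; push Not at hc
      have := (cantor_bounds (h ((a + min b 0) / 2) (by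
        have : a < min b 0 := lt_min hab hc
        linarith) (by
        have : a < min b 0 := lt_min hab hc
        have := min_le_left b 0
        linarith))).1
      have : a < min b 0 := lt_min hab hc
      have := min_le_right b 0
      linarith
    have h2 : b ≤ 1 := by
      by_contra hc; push Not at hc
      have := (cantor_bounds (h ((b + max a 1) / 2) (by
        have : max a 1 < b := max_lt hab hc
        have := le_max_left a 1
        linarith) (by
        have : max a 1 < b := max_lt hab hc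
        linarith))).2
      have : max a 1 < b := max_lt hab hc
      have := le_max_right a 1
      linarith
    linarith
  | succ n ih =>
    intro a b h hab
    have hdich : b ≤ 1 / 3 ∨ 2 / 3 ≤ a := by
      by_contra hc
      push Not at hc
      obtain ⟨c1, c2⟩ := hc
      have e1 : max a (1/3) < min b (2/3) := by
        rw [lt_min_iff, max_lt_iff, max_lt_iff]
        exact ⟨⟨hab, c1⟩, ⟨c2, by norm_num⟩⟩
      have e2 := le_max_left a (1/3)
      have e3 := le_max_right a (1/3)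
      have e4 := min_le_left b (2/3)
      have e5 := min_le_right b (2/3)
      have hy := h ((max a (1/3) + min b (2/3)) / 2) (by linarith) (by linarith)
      rw [cantor_step] at hy
      rcases hy with hy | hy
      · have := (cantor_bounds hy).2; linarith
      · have := (cantor_bounds hy).1; linarith
    rw [pow_succ]
    rcases hdich with hd | hd
    · have := ih (3 * a) (3 * b) (by
        intro y hy1 hy2
        have hm := h (y / 3) (by linarith) (by linarith)
        rw [cantor_step] at hm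
        rcases hm with hm | hm
        · convert hm using 1; ring
        · exfalso; have := (cantor_bounds hm).1; linarith) (by linarith)
      linarith
    · have := ih (3 * a - 2) (3 * b - 2) (by
        intro y hy1 hy2
        have hm := h ((y + 2) / 3) (by linarith) (by linarith)
        rw [cantor_step] at hm
        rcases hm with hm | hm
        · exfalso; have := (cantor_bounds hm).2; linarith
        · convert hm using 1; ring) (by linarith)
      linarith

lemma cantor_empty_interior (a b : ℝ) (hab : a < b) : ∃ y, a < y ∧ y < b ∧ y ∉ cantorSet := by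
  by_contra hc
  push Not at hc
  obtain ⟨n, hn⟩ : ∃ n : ℕ, (1 / 3 : ℝ) ^ n < b - a :=
    exists_pow_lt_of_lt_one (by linarith) (by norm_num)
  have := cantor_no_interval n a b hc hab
  linarith

/-! ### The map `θ` from the line onto the open unit interval -/

/-- third part: `z / 3` is in the Cantor set iff `z` is, for `z < 2` -/
lemma third_iff {z : ℝ} (h : z < 2) : z / 3 ∈ cantorSet ↔ z ∈ cantorSet := by
  rw [cantor_step]
  rw [show 3 * (z / 3) = z by ring]
  constructor
  · rintro (h1 | h1)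
    · exact h1
    · have := (cantor_bounds h1).1; linarith
  · exact Or.inl

lemma third_iff' {z : ℝ} (h : -1 < z) : (z + 2) / 3 ∈ cantorSet ↔ z ∈ cantorSet := by
  rw [cantor_step]
  rw [show 3 * ((z + 2) / 3) = z + 2 by ring, show z + 2 - 2 = z by ring]
  constructor
  · rintro (h1 | h1)
    · have := (cantor_bounds h1).2; linarith
    · exact h1
  · exact Or.inr

/-- the piece of `θ` on `[2n, 2n+2]` -/
noncomputable def piece (n : ℤ) (t : ℝ) : ℝ :=
  if 0 ≤ n then 1 - (3 - t) * (3:ℝ) ^ (-(n + 2)) else max (2 + t) (3 * t) * (3:ℝ) ^ (n - 1)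

lemma zp (n : ℤ) : 0 < (3:ℝ) ^ n := zpow_pos (by norm_num) n

lemma piece_succ {n : ℤ} (hn : 0 ≤ n) (t : ℝ) : piece (n + 1) t = (piece n t + 2) / 3 := by
  unfold piece
  rw [if_pos (by omega), if_pos hn]
  have : (3:ℝ) ^ (-(n + 2)) = 3 * (3:ℝ) ^ (-(n + 1 + 2)) := by
    rw [← zpow_one_add₀ (by norm_num)]; congr 1; ring
  rw [this]; ring

lemma piece_pred {n : ℤ} (hn : n < 0) (t : ℝ) : piece (n - 1) t = piece n t / 3 := by
  unfold piece
  rw [if_neg (by omega), if_neg (by omega)]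
  have : (3:ℝ) ^ (n - 1) = 3 * (3:ℝ) ^ (n - 1 - 1) := by
    rw [← zpow_one_add₀ (by norm_num)]; congr 1; ring
  rw [this]; ring

lemma piece_lt {n : ℤ} {t t' : ℝ} (h : t < t') : piece n t < piece n t' := by
  unfold piece
  split_ifs
  · have := mul_lt_mul_of_pos_right (show 3 - t' < 3 - t by linarith) (zp (-(n+2)))
    linarith
  · apply mul_lt_mul_of_pos_right _ (zp _)
    rw [lt_max_iff]
    rcases le_total (2 + t) (3 * t) with h1 | h1
    · right; rw [max_eq_right h1]; linarith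
    · left; rw [max_eq_left h1]; linarith

lemma piece_two (n : ℤ) : piece n 2 = piece (n + 1) 0 := by
  unfold piece
  rcases lt_trichotomy n (-1) with h | h | h
  · rw [if_neg (by omega), if_neg (by omega)]
    rw [max_eq_right (by norm_num), max_eq_left (by norm_num)]
    have : (3:ℝ) ^ (n + 1 - 1) = 3 * (3:ℝ) ^ (n - 1) := by
      rw [← zpow_one_add₀ (by norm_num)]; congr 1; ring
    rw [this]; ring
  · subst h
    norm_num
  · rw [if_pos (by omega), if_pos (by omega)]
    have : (3:ℝ) ^ (-(n + 2)) = 3 * (3:ℝ) ^ (-(n + 1 + 2)) := by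
      rw [← zpow_one_add₀ (by norm_num)]; congr 1; ring
    rw [this]; ring

lemma piece_lt_succ (n : ℤ) : piece n 0 < piece (n + 1) 0 := by
  rw [← piece_two]; exact piece_lt (by norm_num)

lemma piece_mono : StrictMono (fun n : ℤ => piece n 0) :=
  strictMono_int_of_lt_succ piece_lt_succ

lemma piece_mem (n : ℤ) {t : ℝ} (h0 : 0 ≤ t) (h2 : t < 2) : 0 < piece n t ∧ piece n t < 1 := by
  unfold piece
  split_ifs with h
  · have h1 : (3:ℝ) ^ (-(n + 2)) ≤ 1 / 9 := by
      have : (3:ℝ) ^ (-(n + 2)) ≤ (3:ℝ) ^ (-2 : ℤ) :=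
        zpow_le_zpow_right₀ (by norm_num) (by omega)
      norm_num at this ⊢
      exact this
    have h3 := zp (-(n + 2))
    constructor
    · nlinarith
    · nlinarith
  · have h1 : (3:ℝ) ^ (n - 1) ≤ 1 / 9 := by
      have : (3:ℝ) ^ (n - 1) ≤ (3:ℝ) ^ (-2 : ℤ) :=
        zpow_le_zpow_right₀ (by norm_num) (by omega)
      norm_num at this ⊢
      exact this
    have h3 := zp (n - 1)
    have h4 : 2 ≤ max (2 + t) (3 * t) := le_max_of_le_left (by linarith)
    have h5 : max (2 + t) (3 * t) < 6 := max_lt (by linarith) (by linarith)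
    constructor
    · positivity
    · nlinarith

lemma piece_cantor_nonneg (k : ℕ) {t : ℝ} (h0 : 0 ≤ t) (h2 : t < 2) :
    piece k t ∈ cantorSet ↔ t ∈ cantorSet := by
  induction k with
  | zero =>
    unfold piece
    rw [if_pos (by simp)]
    have : 1 - (3 - t) * (3:ℝ) ^ (-(((0:ℕ):ℤ) + 2)) = (t / 3 + 2) / 3 := by norm_num; ring
    rw [this, third_iff' (by linarith), third_iff h2]
  | succ k ih =>
    have h3 := piece_mem k h0 h2
    push_cast
    rw [piece_succ (by omega), third_iff' (by linarith), ih]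

lemma piece_cantor_neg (k : ℕ) {t : ℝ} (h0 : 0 ≤ t) (h2 : t < 2) :
    piece (-1 - k) t ∈ cantorSet ↔ t ∈ cantorSet := by
  induction k with
  | zero =>
    unfold piece
    rw [if_neg (by simp)]
    rcases le_total 1 t with h | h
    · rw [max_eq_right (by linarith)]
      have : 3 * t * (3:ℝ) ^ (-1 - ((0:ℕ):ℤ) - 1) = t / 3 := by norm_num; ring
      rw [this, third_iff h2]
    · rw [max_eq_left (by linarith)]
      have : (2 + t) * (3:ℝ) ^ (-1 - ((0:ℕ):ℤ) - 1) = ((t + 2) / 3) / 3 := by norm_num; ring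
      rw [this, third_iff (by linarith), third_iff' (by linarith)]
  | succ k ih =>
    have h3 := piece_mem (-1 - k) h0 h2
    have e : (-1 - ((k + 1 : ℕ) : ℤ)) = (-1 - (k:ℤ)) - 1 := by push_cast; ring
    rw [e, piece_pred (by omega), third_iff (by linarith), ih]

lemma piece_cantor (n : ℤ) {t : ℝ} (h0 : 0 ≤ t) (h2 : t < 2) :
    piece n t ∈ cantorSet ↔ t ∈ cantorSet := by
  rcases lt_or_ge n 0 with h | h
  · obtain ⟨k, hk⟩ : ∃ k : ℕ, n = -1 - k := ⟨(-1 - n).toNat, by omega⟩
    rw [hk]; exact piece_cantor_neg k h0 h2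
  · obtain ⟨k, rfl⟩ := Int.eq_ofNat_of_zero_le h
    exact piece_cantor_nonneg k h0 h2

/-- A piecewise affine increasing bijection from the line onto the open unit interval taking
`KC` to the Cantor set. -/
noncomputable def θ (x : ℝ) : ℝ := piece ⌊x / 2⌋ (x - 2 * ⌊x / 2⌋)

lemma floor2 {x : ℝ} {n : ℤ} (h0 : 0 ≤ x - 2 * n) (h1 : x - 2 * n < 2) : ⌊x / 2⌋ = n := by
  rw [Int.floor_eq_iff]; constructor <;> linarith

lemma per2 (x : ℝ) : ∃ n : ℤ, 0 ≤ x - 2 * n ∧ x - 2 * n < 2 :=
  ⟨⌊x / 2⌋, by have := Int.floor_le (x / 2); linarith,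
    by have := Int.lt_floor_add_one (x / 2); linarith⟩

lemma θ_eq {x : ℝ} {n : ℤ} (h0 : 0 ≤ x - 2 * n) (h1 : x - 2 * n < 2) :
    θ x = piece n (x - 2 * n) := by
  unfold θ; rw [floor2 h0 h1]

lemma θ_mem (x : ℝ) : θ x ∈ Ioo (0:ℝ) 1 := by
  obtain ⟨n, h0, h1⟩ := per2 x
  rw [θ_eq h0 h1]; exact piece_mem n h0 h1

lemma θ_cantor (x : ℝ) : θ x ∈ cantorSet ↔ x ∈ KC := by
  obtain ⟨n, h0, h1⟩ := per2 x
  rw [θ_eq h0 h1, KC_iff h0 h1]; exact piece_cantor n h0 h1

lemma θ_mono : StrictMono θ := by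
  intro x y hxy
  obtain ⟨n, h0, h1⟩ := per2 x
  obtain ⟨m, h2, h3⟩ := per2 y
  rw [θ_eq h0 h1, θ_eq h2 h3]
  have hnm : n ≤ m := by
    have : (n:ℝ) < m + 1 := by linarith
    have : n < m + 1 := by exact_mod_cast this
    omega
  rcases hnm.eq_or_lt with rfl | hlt
  · exact piece_lt (by linarith)
  · calc piece n (x - 2 * n) < piece n 2 := piece_lt h1
      _ = piece (n + 1) 0 := piece_two n
      _ ≤ piece m 0 := piece_mono.monotone hlt
      _ ≤ piece m (y - 2 * m) := by
        rcases h2.eq_or_lt with h | h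
        · rw [← h]
        · exact (piece_lt h).le

lemma piece_surj_nonneg {n : ℤ} (hn : 0 ≤ n) {y : ℝ} (h0 : piece n 0 ≤ y) (h1 : y < piece n 2) :
    ∃ t, 0 ≤ t ∧ t < 2 ∧ piece n t = y := by
  refine ⟨3 - (1 - y) * (3:ℝ) ^ (n + 2), ?_, ?_, ?_⟩
  · unfold piece at h0
    rw [if_pos hn] at h0
    have e : (3:ℝ) ^ (-(n + 2)) * (3:ℝ) ^ (n + 2) = 1 := by
      rw [← zpow_add₀ (by norm_num)]; simp
    have h3 := mul_le_mul_of_nonneg_right h0 (zp (n + 2)).le
    nlinarith
  · unfold piece at h1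
    rw [if_pos hn] at h1
    have e : (3:ℝ) ^ (-(n + 2)) * (3:ℝ) ^ (n + 2) = 1 := by
      rw [← zpow_add₀ (by norm_num)]; simp
    have h3 := mul_lt_mul_of_pos_right h1 (zp (n + 2))
    nlinarith
  · unfold piece
    rw [if_pos hn]
    have e : (3:ℝ) ^ (n + 2) * (3:ℝ) ^ (-(n + 2)) = 1 := by
      rw [← zpow_add₀ (by norm_num)]; simp
    have : (3 - (3 - (1 - y) * (3:ℝ) ^ (n + 2))) * (3:ℝ) ^ (-(n + 2)) =
        (1 - y) * ((3:ℝ) ^ (n + 2) * (3:ℝ) ^ (-(n + 2))) := by ring
    rw [this, e]; ring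

lemma piece_surj_neg {n : ℤ} (hn : n < 0) {y : ℝ} (h0 : piece n 0 ≤ y) (h1 : y < piece n 2) :
    ∃ t, 0 ≤ t ∧ t < 2 ∧ piece n t = y := by
  have e : (3:ℝ) ^ (n - 1) * (3:ℝ) ^ (-(n - 1)) = 1 := by
    rw [← zpow_add₀ (by norm_num)]; simp
  set Y := y * (3:ℝ) ^ (-(n - 1)) with hY
  have hy : y = Y * (3:ℝ) ^ (n - 1) := by
    rw [hY, mul_assoc, mul_comm ((3:ℝ) ^ (-(n-1))), e, mul_one]
  unfold piece at h0 h1
  rw [if_neg (by omega)] at h0 h1
  rw [max_eq_left (by norm_num)] at h0
  rw [max_eq_right (by norm_num)] at h1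
  rw [hy] at h0 h1
  have hY0 : 2 + 0 ≤ Y := le_of_mul_le_mul_right h0 (zp (n-1))
  have hY1 : Y < 3 * 2 := lt_of_mul_lt_mul_right h1 (zp (n-1)).le
  rcases le_total Y 3 with h | h
  · refine ⟨Y - 2, by linarith, by linarith, ?_⟩
    unfold piece
    rw [if_neg (by omega), max_eq_left (by linarith), hy]
    ring
  · refine ⟨Y / 3, by linarith, by linarith, ?_⟩
    unfold piece
    rw [if_neg (by omega), max_eq_right (by linarith), hy]
    ring

lemma exists_piece_le {y : ℝ} (h0 : 0 < y) : ∃ n : ℤ, piece n 0 ≤ y := by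
  obtain ⟨k, hk⟩ : ∃ k : ℕ, (1 / 3 : ℝ) ^ k < y := exists_pow_lt_of_lt_one h0 (by norm_num)
  refine ⟨-1 - k, ?_⟩
  unfold piece
  rw [if_neg (by omega), max_eq_left (by norm_num)]
  have : (3:ℝ) ^ (-1 - (k:ℤ) - 1) = (1/9) * (1 / 3 : ℝ) ^ k := by
    rw [show (-1 - (k:ℤ) - 1) = (-2 : ℤ) + -(k:ℤ) by ring, zpow_add₀ (by norm_num),
      zpow_neg (3:ℝ) (k:ℤ), zpow_natCast, one_div_pow]
    norm_num
  rw [this]
  have : 0 < (1 / 3 : ℝ) ^ k := by positivity
  nlinarith

lemma exists_lt_piece {y : ℝ} (h1 : y < 1) : ∃ n : ℤ, y < piece n 0 := by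
  obtain ⟨k, hk⟩ : ∃ k : ℕ, (1 / 3 : ℝ) ^ k < 1 - y :=
    exists_pow_lt_of_lt_one (by linarith) (by norm_num)
  refine ⟨k, ?_⟩
  unfold piece
  rw [if_pos (by omega)]
  have : (3:ℝ) ^ (-((k:ℤ) + 2)) = (1/9) * (1 / 3 : ℝ) ^ k := by
    rw [show (-((k:ℤ) + 2)) = (-2 : ℤ) + -(k:ℤ) by ring, zpow_add₀ (by norm_num),
      zpow_neg (3:ℝ) (k:ℤ), zpow_natCast, one_div_pow]
    norm_num
  rw [this]
  have : 0 < (1 / 3 : ℝ) ^ k := by positivity
  nlinarith

lemma θ_surj {y : ℝ} (hy : y ∈ Ioo (0:ℝ) 1) : ∃ x, θ x = y := by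
  obtain ⟨n0, hn0⟩ := exists_piece_le hy.1
  obtain ⟨m, hm⟩ := exists_lt_piece hy.2
  obtain ⟨n, hn, hmax⟩ := Int.exists_greatest_of_bdd (P := fun n => piece n 0 ≤ y)
    ⟨m, fun z hz => by
      by_contra hc
      push Not at hc
      have := piece_mono hc
      simp only at this
      linarith⟩ ⟨n0, hn0⟩
  have hlt : y < piece n 2 := by
    rw [piece_two]
    by_contra hc
    push Not at hc
    have := hmax _ hc
    omega
  obtain ⟨t, ht0, ht2, ht⟩ : ∃ t, 0 ≤ t ∧ t < 2 ∧ piece n t = y := by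
    rcases lt_or_ge n 0 with h | h
    · exact piece_surj_neg h hn hlt
    · exact piece_surj_nonneg h hn hlt
  refine ⟨2 * n + t, ?_⟩
  rw [θ_eq (n := n) (by linarith) (by linarith)]
  rw [show 2 * (n:ℝ) + t - 2 * n = t by ring]
  exact ht

/-- `θ` as an order isomorphism -/
noncomputable def Θ : ℝ ≃o Ioo (0:ℝ) 1 :=
  StrictMono.orderIsoOfSurjective (fun x => (⟨θ x, θ_mem x⟩ : Ioo (0:ℝ) 1))
    (fun _ _ h => θ_mono h) (fun y => by
      obtain ⟨x, hx⟩ := θ_surj y.2
      exact ⟨x, Subtype.ext hx⟩)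

lemma Θ_coe (x : ℝ) : ((Θ x : Ioo (0:ℝ) 1) : ℝ) = θ x := rfl

/-! ### The compactification operator -/

open Classical in
/-- conjugate a map of the line by `θ` and extend it by the identity -/
noncomputable def cmp (h : ℝ → ℝ) (x : ℝ) : ℝ :=
  if hx : x ∈ Ioo (0:ℝ) 1 then θ (h (Θ.symm ⟨x, hx⟩)) else x

lemma cmp_θ (h : ℝ → ℝ) (y : ℝ) : cmp h (θ y) = θ (h y) := by
  unfold cmp
  rw [dif_pos (θ_mem y)]
  congr 2
  exact Θ.symm_apply_apply y

lemma cmp_out (h : ℝ → ℝ) {x : ℝ} (hx : x ∉ Ioo (0:ℝ) 1) : cmp h x = x := by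
  unfold cmp; rw [dif_neg hx]

lemma cases_θ (x : ℝ) : x ∉ Ioo (0:ℝ) 1 ∨ ∃ y, x = θ y := by
  by_cases hx : x ∈ Ioo (0:ℝ) 1
  · right
    obtain ⟨y, hy⟩ := θ_surj hx
    exact ⟨y, hy.symm⟩
  · left; exact hx

lemma cmp_mono (h : ℝ ≃o ℝ) : StrictMono (cmp h) := by
  intro x y hxy
  rcases cases_θ x with hx | ⟨a, rfl⟩
  · rcases cases_θ y with hy | ⟨b, rfl⟩
    · rwa [cmp_out _ hx, cmp_out _ hy]
    · rw [cmp_out _ hx, cmp_θ]
      have h1 := θ_mem b
      have h2 := θ_mem (h b)
      have : x ≤ 0 := by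
        by_contra hc
        push Not at hc
        exact hx ⟨hc, by linarith [h1.2]⟩
      linarith [h2.1]
  · rcases cases_θ y with hy | ⟨b, rfl⟩
    · rw [cmp_out _ hy, cmp_θ]
      have h1 := θ_mem a
      have h2 := θ_mem (h a)
      have : 1 ≤ y := by
        by_contra hc
        push Not at hc
        exact hy ⟨by linarith [h1.1], hc⟩
      linarith [h2.2]
    · rw [cmp_θ, cmp_θ]
      exact θ_mono (h.strictMono (θ_mono.lt_iff_lt.1 hxy))

lemma cmp_comp (g h : ℝ → ℝ) (x : ℝ) : cmp g (cmp h x) = cmp (fun z => g (h z)) x := by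
  rcases cases_θ x with hx | ⟨a, rfl⟩
  · rw [cmp_out _ hx, cmp_out _ hx, cmp_out _ hx]
  · rw [cmp_θ, cmp_θ, cmp_θ]

lemma cmp_id (x : ℝ) : cmp (fun z => z) x = x := by
  rcases cases_θ x with hx | ⟨a, rfl⟩
  · rw [cmp_out _ hx]
  · rw [cmp_θ]

/-- the compactification as an order automorphism -/
noncomputable def EE (h : ℝ ≃o ℝ) : ℝ ≃o ℝ :=
  StrictMono.orderIsoOfRightInverse (cmp h) (cmp_mono h) (cmp h.symm) (fun x => by
    rw [cmp_comp]
    have : (fun z => h (h.symm z)) = fun z => z := by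
      funext z; exact h.apply_symm_apply z
    rw [this, cmp_id])

lemma EE_apply (h : ℝ ≃o ℝ) (x : ℝ) : EE h x = cmp h x := rfl

lemma EE_θ (h : ℝ ≃o ℝ) (y : ℝ) : EE h (θ y) = θ (h y) := cmp_θ h y

lemma EE_out (h : ℝ ≃o ℝ) {x : ℝ} (hx : x ∉ Ioo (0:ℝ) 1) : EE h x = x := cmp_out h hx

/-- the compactification as a homomorphism -/
noncomputable def E : (ℝ ≃o ℝ) →* (ℝ ≃o ℝ) where
  toFun := EE
  map_one' := by
    apply RelIso.ext
    intro x
    exact cmp_id x
  map_mul' g h := by
    apply RelIso.ext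
    intro x
    exact (cmp_comp g h x).symm

lemma E_θ (h : ℝ ≃o ℝ) (y : ℝ) : E h (θ y) = θ (h y) := cmp_θ h y

lemma E_out (h : ℝ ≃o ℝ) {x : ℝ} (hx : x ∉ Ioo (0:ℝ) 1) : E h x = x := cmp_out h hx

/-- order automorphisms preserving a set -/
def Pres (A : Set ℝ) : Subgroup (ℝ ≃o ℝ) where
  carrier := {h | ∀ x, h x ∈ A ↔ x ∈ A}
  mul_mem' := by
    intro a b ha hb x
    exact (ha (b x)).trans (hb x)
  one_mem' := fun _ => Iff.rfl
  inv_mem' := by
    intro a ha x
    have := ha (a⁻¹ x)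
    rw [← this]
    have e : a (a⁻¹ x) = x := a.apply_symm_apply x
    rw [e]

lemma mem_Pres {A : Set ℝ} {h : ℝ ≃o ℝ} : h ∈ Pres A ↔ ∀ x, h x ∈ A ↔ x ∈ A := Iff.rfl

lemma E_mem_cantor {h : ℝ ≃o ℝ} (hh : h ∈ Pres KC) : E h ∈ Pres cantorSet := by
  intro x
  rcases cases_θ x with hx | ⟨a, rfl⟩
  · rw [E_out _ hx]
  · rw [E_θ, θ_cantor, θ_cantor]
    exact hh a

lemma KC_unit {x : ℝ} (hx : x ∈ Ioo (0:ℝ) 1) : x ∈ KC ↔ x ∈ cantorSet := by
  have := KC_iff (x := x) (n := 0) (by simpa using hx.1.le) (by have := hx.2; push_cast; linarith)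
  simpa using this

lemma E_mem_KC {h : ℝ ≃o ℝ} (hh : h ∈ Pres KC) : E h ∈ Pres KC := by
  intro x
  rcases cases_θ x with hx | ⟨a, rfl⟩
  · rw [E_out _ hx]
  · rw [E_θ, KC_unit (θ_mem _), KC_unit (θ_mem _), θ_cantor, θ_cantor]
    exact hh a

/-! ### The three generators -/

/-- translation by two -/
def sh : ℝ ≃o ℝ := OrderIso.addRight 2

lemma sh_apply (x : ℝ) : sh x = x + 2 := rfl

lemma sh_mem : sh ∈ Pres KC := by
  intro x
  rw [sh_apply]
  constructor
  · rintro ⟨n, hn⟩; exact ⟨n - 1, by convert hn using 1; push_cast; ring⟩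
  · rintro ⟨n, hn⟩; exact ⟨n + 1, by convert hn using 1; push_cast; ring⟩

/-- the basic piece of `v` -/
noncomputable def v0 (t : ℝ) : ℝ := min (max (max (2 + t / 3) (t + 2 / 3)) (3 * t - 4)) (t + 2)

/-- the basic piece of the inverse of `v` -/
noncomputable def w0 (y : ℝ) : ℝ := max (min (min (3 * (y - 2)) (y - 2 / 3)) ((y + 4) / 3)) (y - 2)

lemma v0_a {t : ℝ} (h0 : 0 ≤ t) (h1 : t ≤ 2) : v0 t = 2 + t / 3 := by
  unfold v0
  rw [max_eq_left (a := 2 + t / 3) (by linarith), max_eq_left (by linarith),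
    min_eq_left (by linarith)]

lemma v0_b {t : ℝ} (h0 : 2 ≤ t) (h1 : t ≤ 7 / 3) : v0 t = t + 2 / 3 := by
  unfold v0
  rw [max_eq_right (a := 2 + t / 3) (by linarith), max_eq_left (by linarith),
    min_eq_left (by linarith)]

lemma v0_c {t : ℝ} (h0 : 7 / 3 ≤ t) (h1 : t ≤ 3) : v0 t = 3 * t - 4 := by
  unfold v0
  rw [max_eq_right (a := 2 + t / 3) (by linarith), max_eq_right (by linarith),
    min_eq_left (by linarith)]

lemma v0_d {t : ℝ} (h0 : 3 ≤ t) : v0 t = t + 2 := by
  unfold v0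
  rw [max_eq_right (a := 2 + t / 3) (by linarith), max_eq_right (by linarith),
    min_eq_right (by linarith)]

lemma v0_lt {t t' : ℝ} (h : t < t') : v0 t < v0 t' := by
  unfold v0
  apply min_lt_min
  · apply max_lt_max
    · apply max_lt_max <;> linarith
    · linarith
  · linarith

lemma v0_bounds {t : ℝ} (h0 : 0 ≤ t) (h1 : t < 4) : 2 ≤ v0 t ∧ v0 t < 6 := by
  have e0 : v0 0 = 2 := by rw [v0_a le_rfl (by norm_num)]; norm_num
  have e1 : v0 4 = 6 := by rw [v0_d (by norm_num)]; norm_num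
  constructor
  · rcases h0.eq_or_lt with h | h
    · rw [← h, e0]
    · have := v0_lt h; linarith
  · have := v0_lt h1; linarith

lemma v0_w0 {y : ℝ} (h0 : 2 ≤ y) (h1 : y < 6) : 0 ≤ w0 y ∧ w0 y < 4 ∧ v0 (w0 y) = y := by
  unfold w0
  rcases le_total y (8 / 3) with h | h
  · rw [min_eq_left (a := 3 * (y - 2)) (by linarith), min_eq_left (by linarith),
      max_eq_left (by linarith), v0_a (by linarith) (by linarith)]
    refine ⟨by linarith, by linarith, by ring⟩
  · rw [min_eq_right (a := 3 * (y - 2)) (by linarith)]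
    rcases le_total y 3 with h' | h'
    · rw [min_eq_left (by linarith), max_eq_left (by linarith), v0_b (by linarith) (by linarith)]
      refine ⟨by linarith, by linarith, by ring⟩
    · rw [min_eq_right (by linarith)]
      rcases le_total y 5 with h'' | h''
      · rw [max_eq_left (by linarith), v0_c (by linarith) (by linarith)]
        refine ⟨by linarith, by linarith, by ring⟩
      · rw [max_eq_right (by linarith), v0_d (by linarith)]
        refine ⟨by linarith, by linarith, by ring⟩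

noncomputable def vf (x : ℝ) : ℝ := 4 * ⌊x / 4⌋ + v0 (x - 4 * ⌊x / 4⌋)
noncomputable def vg (y : ℝ) : ℝ := 4 * ⌊(y - 2) / 4⌋ + w0 (y - 4 * ⌊(y - 2) / 4⌋)

lemma floor4 {x : ℝ} {n : ℤ} (h0 : 0 ≤ x - 4 * n) (h1 : x - 4 * n < 4) : ⌊x / 4⌋ = n := by
  rw [Int.floor_eq_iff]; constructor <;> linarith

lemma per4 (x : ℝ) : ∃ n : ℤ, 0 ≤ x - 4 * n ∧ x - 4 * n < 4 :=
  ⟨⌊x / 4⌋, by have := Int.floor_le (x / 4); linarith,
    by have := Int.lt_floor_add_one (x / 4); linarith⟩

lemma vf_eq {x : ℝ} {n : ℤ} (h0 : 0 ≤ x - 4 * n) (h1 : x - 4 * n < 4) :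
    vf x = 4 * n + v0 (x - 4 * n) := by
  unfold vf; rw [floor4 h0 h1]

lemma vf_mono : StrictMono vf := by
  intro x y hxy
  obtain ⟨n, hn0, hn1⟩ := per4 x
  obtain ⟨m, hm0, hm1⟩ := per4 y
  rw [vf_eq hn0 hn1, vf_eq hm0 hm1]
  have hnm : n ≤ m := by
    have : (n:ℝ) < m + 1 := by linarith
    have : n < m + 1 := by exact_mod_cast this
    omega
  rcases hnm.eq_or_lt with rfl | hlt
  · have := v0_lt (show x - 4 * (n:ℝ) < y - 4 * n by linarith)
    linarith
  · have h1 : (n:ℝ) + 1 ≤ m := by exact_mod_cast hlt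
    have h2 := (v0_bounds hn0 hn1).2
    have h3 := (v0_bounds hm0 hm1).1
    linarith

lemma vf_vg (y : ℝ) : vf (vg y) = y := by
  obtain ⟨n, h0, h1⟩ := per4 (y - 2)
  unfold vg
  rw [floor4 h0 h1]
  obtain ⟨a, b, c⟩ := v0_w0 (y := y - 4 * n) (by linarith) (by linarith)
  rw [vf_eq (n := n) (by linarith) (by linarith)]
  rw [show 4 * (n:ℝ) + w0 (y - 4 * n) - 4 * n = w0 (y - 4 * n) by ring, c]
  ring

/-- the piecewise affine map of period four taking `[0,2)` to `[2,8/3)`, `[2,8/3)` to `[8/3,4)` and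
`[8/3,4)` to `[4,6)` -/
noncomputable def vv : ℝ ≃o ℝ := StrictMono.orderIsoOfRightInverse vf vf_mono vg vf_vg

lemma vv_apply (x : ℝ) : vv x = vf x := rfl

lemma vv_mem : vv ∈ Pres KC := by
  intro x
  rw [vv_apply]
  obtain ⟨n, h0, h1⟩ := per4 x
  rw [vf_eq h0 h1]
  rcases lt_or_ge (x - 4 * n) 2 with h | h
  · rw [v0_a h0 h.le, KC_iff (x := x) (n := 2 * n) (by push_cast; linarith) (by push_cast; linarith),
      KC_iff (n := 2 * n + 1) (by push_cast; linarith) (by push_cast; linarith)]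
    push_cast
    rw [show 4 * (n:ℝ) + (2 + (x - 4 * n) / 3) - 2 * (2 * n + 1) = (x - 2 * (2 * n)) / 3 by ring]
    exact third_iff (by linarith)
  · rw [KC_iff (x := x) (n := 2 * n + 1) (by push_cast; linarith) (by push_cast; linarith)]
    rcases le_total (x - 4 * n) (7 / 3) with h2 | h2
    · rw [v0_b h h2, KC_iff (n := 2 * n + 1) (by push_cast; linarith) (by push_cast; linarith)]
      push_cast
      rw [show 4 * (n:ℝ) + (x - 4 * n + 2 / 3) - 2 * (2 * n + 1) =
        (3 * (x - 2 * (2 * n + 1)) + 2) / 3 by ring, third_iff' (by linarith)]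
      rw [← third_iff (z := 3 * (x - 2 * (2 * (n:ℝ) + 1))) (by linarith)]
      rw [show 3 * (x - 2 * (2 * (n:ℝ) + 1)) / 3 = x - 2 * (2 * (n:ℝ) + 1) by ring]
    · rcases le_total (x - 4 * n) 3 with h3 | h3
      · rw [v0_c h2 h3]
        rcases lt_or_ge (x - 4 * n) (8 / 3) with h4 | h4
        · rw [KC_iff (n := 2 * n + 1) (by push_cast; linarith) (by push_cast; linarith)]
          push_cast
          constructor
          · intro h5
            have h6 := cantor_bounds h5
            have h7 : x - 4 * n = 7 / 3 := by linarith [h6.2]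
            rw [show 4 * (n:ℝ) + (3 * (x - 4 * n) - 4) - 2 * (2 * n + 1) =
              3 * (x - 2 * (2 * (n:ℝ) + 1)) by ring] at h5
            rw [← third_iff (by linarith)] at h5
            rw [show 3 * (x - 2 * (2 * (n:ℝ) + 1)) / 3 = x - 2 * (2 * (n:ℝ) + 1) by ring] at h5
            exact h5
          · intro h5
            rw [cantor_step] at h5
            rcases h5 with h5 | h5
            · convert h5 using 1; ring
            · have := (cantor_bounds h5).1; linarith
        · rw [KC_iff (n := 2 * n + 2) (by push_cast; linarith) (by push_cast; linarith)]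
          push_cast
          rw [show 4 * (n:ℝ) + (3 * (x - 4 * n) - 4) - 2 * (2 * n + 2) =
            3 * (x - 2 * (2 * (n:ℝ) + 1)) - 2 by ring]
          rw [cantor_step (x - 2 * (2 * (n:ℝ) + 1))]
          constructor
          · exact Or.inr
          · rintro (h5 | h5)
            · have := (cantor_bounds h5).2; linarith
            · exact h5
      · rw [v0_d h3]
        rw [KC_iff (n := 2 * n + 2) (by push_cast; linarith) (by push_cast; linarith)]
        push_cast
        rw [show 4 * (n:ℝ) + (x - 4 * n + 2) - 2 * (2 * n + 2) = x - 2 * (2 * (n:ℝ) + 1) by ring]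

/-! ### The ping-pong partition -/

/-- points with residue modulo four in `[a, b)` -/
def Res (a b : ℝ) : Set ℝ := {x | ∃ n : ℤ, a ≤ x - 4 * n ∧ x - 4 * n < b}

lemma res_iff {a b x : ℝ} {n : ℤ} (ha : 0 ≤ a) (hb : b ≤ 4) (h0 : 0 ≤ x - 4 * n)
    (h1 : x - 4 * n < 4) : x ∈ Res a b ↔ a ≤ x - 4 * n ∧ x - 4 * n < b := by
  constructor
  · rintro ⟨m, hm0, hm1⟩
    have e : m = n := by
      have c1 : (m:ℝ) < n + 1 := by linarith
      have c2 : (n:ℝ) < m + 1 := by linarith
      have c1' : m < n + 1 := by exact_mod_cast c1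
      have c2' : n < m + 1 := by exact_mod_cast c2
      omega
    rw [← e]; exact ⟨hm0, hm1⟩
  · intro h; exact ⟨n, h⟩

lemma pre_sh : sh ⁻¹' (Res 0 2) = Res 2 4 := by
  ext x
  rw [mem_preimage, sh_apply]
  obtain ⟨n, h0, h1⟩ := per4 x
  rw [res_iff (n := n) (by norm_num) le_rfl h0 h1]
  rcases lt_or_ge (x - 4 * n) 2 with h | h
  · rw [res_iff (n := n) le_rfl (by norm_num) (by linarith) (by linarith)]
    constructor
    · rintro ⟨h2, h3⟩; linarith
    · rintro ⟨h2, h3⟩; linarith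
  · rw [res_iff (n := n + 1) le_rfl (by norm_num) (by push_cast; linarith) (by push_cast; linarith)]
    push_cast
    constructor
    · rintro ⟨h2, h3⟩; constructor <;> linarith
    · rintro ⟨h2, h3⟩; constructor <;> linarith

lemma pre_vv1 : vv ⁻¹' (Res 2 (8 / 3)) = Res 0 2 := by
  ext x
  rw [mem_preimage, vv_apply]
  obtain ⟨n, h0, h1⟩ := per4 x
  rw [res_iff (n := n) le_rfl (by norm_num) h0 h1, vf_eq h0 h1]
  rcases lt_or_ge (x - 4 * n) 2 with h | h
  · rw [v0_a h0 h.le]
    rw [res_iff (n := n) (by norm_num) (by norm_num) (by linarith) (by linarith)]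
    constructor
    · rintro _; constructor <;> linarith
    · rintro ⟨h2, h3⟩; constructor <;> linarith
  · have hb : 8 / 3 ≤ v0 (x - 4 * n) := by
      have e : v0 2 = 8 / 3 := by rw [v0_b le_rfl (by norm_num)]; norm_num
      rcases h.eq_or_lt with h' | h'
      · rw [← h', e]
      · have := v0_lt h'; linarith
    have hc := (v0_bounds h0 h1).2
    constructor
    · rintro hx
      exfalso
      rcases lt_or_ge (v0 (x - 4 * n)) 4 with h4 | h4
      · rw [res_iff (n := n) (by norm_num) (by norm_num) (by linarith) (by linarith)] at hx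
        linarith [hx.2]
      · rw [res_iff (n := n + 1) (by norm_num) (by norm_num) (by push_cast; linarith)
          (by push_cast; linarith)] at hx
        have := hx.1
        push_cast at this
        linarith
    · rintro ⟨h2, h3⟩; linarith

lemma pre_vv2 : vv ⁻¹' (Res (8 / 3) 4) = Res 2 (8 / 3) := by
  ext x
  rw [mem_preimage, vv_apply]
  obtain ⟨n, h0, h1⟩ := per4 x
  rw [res_iff (n := n) (by norm_num) (by norm_num) h0 h1, vf_eq h0 h1]
  have e2 : v0 2 = 8 / 3 := by rw [v0_b le_rfl (by norm_num)]; norm_num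
  have e3 : v0 (8 / 3) = 4 := by rw [v0_c (by norm_num) (by norm_num)]; norm_num
  have hb := v0_bounds h0 h1
  rcases lt_or_ge (x - 4 * n) 2 with h | h
  · have h4 := v0_lt h
    rw [res_iff (n := n) (by norm_num) (by norm_num) (by linarith) (by linarith)]
    constructor
    · rintro ⟨h2, h3⟩; linarith
    · rintro ⟨h2, h3⟩; linarith
  · have h4 : 8 / 3 ≤ v0 (x - 4 * n) := by
      rcases h.eq_or_lt with h' | h'
      · rw [← h', e2]
      · have := v0_lt h'; linarith
    rcases lt_or_ge (x - 4 * n) (8 / 3) with h5 | h5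
    · have h6 := v0_lt h5
      rw [res_iff (n := n) (by norm_num) (by norm_num) (by linarith) (by linarith)]
      constructor
      · rintro _; exact ⟨h, h5⟩
      · rintro _; constructor <;> linarith
    · have h6 : 4 ≤ v0 (x - 4 * n) := by
        rcases h5.eq_or_lt with h' | h'
        · rw [← h', e3]
        · have := v0_lt h'; linarith
      rw [res_iff (n := n + 1) (by norm_num) (by norm_num) (by push_cast; linarith)
        (by push_cast; linarith)]
      push_cast
      constructor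
      · rintro ⟨h2, h3⟩; linarith
      · rintro ⟨h2, h3⟩; linarith

end Pool.Agent.W5h69.Line
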