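import Mathlib

set_option autoImplicit false

/-! # Homogeneous quasimorphisms and commuting conjugates -/

namespace Pool.Agent.W5h69.QM

/-- A quasimorphism: a real function on a group with bounded defect. -/
def IsQuasimorphism {H : Type*} [Group H] (φ : H → ℝ) : Prop :=
  ∃ D : ℝ, ∀ g h : H, |φ (g * h) - φ g - φ h| ≤ D

/-- A homogeneous function on a group. -/
def IsHomogeneous {H : Type*} [Group H] (φ : H → ℝ) : Prop :=
  ∀ (g : H) (n : ℤ), φ (g ^ n) = n * φ g

section
variable {H : Type*} [Group H] {φ : H → ℝ}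

lemma eq_zero_of_bdd {x D : ℝ} (h : ∀ n : ℕ, |(n : ℝ) * x| ≤ D) : x = 0 := by
  by_contra hx
  have hx' : 0 < |x| := abs_pos.2 hx
  obtain ⟨n, hn⟩ := exists_nat_gt (D / |x|)
  have h1 := h n
  rw [abs_mul, Nat.abs_cast] at h1
  rw [div_lt_iff₀ hx'] at hn
  linarith

lemma hom_one (hh : IsHomogeneous φ) : φ 1 = 0 := by
  have := hh 1 0
  simpa using this

lemma hom_inv (hh : IsHomogeneous φ) (g : H) : φ g⁻¹ = - φ g := by
  have := hh g (-1)
  simpa using this

lemma hom_pow (hh : IsHomogeneous φ) (g : H) (n : ℕ) : φ (g ^ n) = n * φ g := by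
  have := hh g n
  simpa using this

lemma conj_inv (hq : IsQuasimorphism φ) (hh : IsHomogeneous φ) (h g : H) :
    φ (h * g * h⁻¹) = φ g := by
  obtain ⟨D, hD⟩ := hq
  have key : ∀ n : ℕ, |(n : ℝ) * (φ (h * g * h⁻¹) - φ g)| ≤ 2 * D := by
    intro n
    have h1 := hD h (g ^ n * h⁻¹)
    have h2 := hD (g ^ n) h⁻¹
    rw [hom_inv hh] at h2
    have h3 : h * (g ^ n * h⁻¹) = (h * g * h⁻¹) ^ n := by
      rw [conj_pow, mul_assoc]
    rw [h3, hom_pow hh] at h1
    rw [hom_pow hh] at h2
    rw [abs_le] at *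
    constructor <;> nlinarith
  have := eq_zero_of_bdd key
  linarith

lemma commute_add (hq : IsQuasimorphism φ) (hh : IsHomogeneous φ) {a b : H} (hab : Commute a b) :
    φ (a * b) = φ a + φ b := by
  obtain ⟨D, hD⟩ := hq
  have key : ∀ n : ℕ, |(n : ℝ) * (φ (a * b) - φ a - φ b)| ≤ D := by
    intro n
    have h1 := hD (a ^ n) (b ^ n)
    rw [← hab.mul_pow, hom_pow hh, hom_pow hh, hom_pow hh] at h1
    convert h1 using 2
    ring
  have := eq_zero_of_bdd key
  linarith

/-- the product of the first `n` members of a sequence -/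
def pr (f : ℕ → H) : ℕ → H
  | 0 => 1
  | n + 1 => pr f n * f n

lemma pr_commute {f : ℕ → H} {x : H} {n : ℕ} (h : ∀ i < n, Commute (f i) x) :
    Commute (pr f n) x := by
  induction n with
  | zero => exact Commute.one_left x
  | succ n ih =>
    exact (ih (fun i hi => h i (hi.trans (Nat.lt_succ_self n)))).mul_left (h n (Nat.lt_succ_self n))

lemma pr_value (hq : IsQuasimorphism φ) (hh : IsHomogeneous φ) {f : ℕ → H} {c : ℝ}
    (hf : ∀ i, φ (f i) = c) (hc : ∀ i j, i < j → Commute (f i) (f j)) (n : ℕ) :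
    φ (pr f n) = n * c := by
  induction n with
  | zero => simp [pr, hom_one hh]
  | succ n ih =>
    have : Commute (pr f n) (f n) := pr_commute (fun i hi => hc i n hi)
    rw [pr, commute_add hq hh this, ih, hf]
    push_cast
    ring

lemma pr_mul {f g : ℕ → H} (hc : ∀ i j, i < j → Commute (g i) (f j)) (n : ℕ) :
    pr f n * pr g n = pr (fun i => f i * g i) n := by
  induction n with
  | zero => simp [pr]
  | succ n ih =>
    have h1 : Commute (pr g n) (f n) := pr_commute (fun i hi => hc i n hi)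
    simp only [pr]
    rw [← ih]
    calc pr f n * f n * (pr g n * g n) = pr f n * (f n * pr g n) * g n := by group
      _ = pr f n * (pr g n * f n) * g n := by rw [h1.eq]
      _ = pr f n * pr g n * (f n * g n) := by group

/-- If there are elements `t i` such that the conjugates of `a` and `b` by `t i` and by `t j`
commute for `i < j`, then every homogeneous quasimorphism is additive on the pair `a`, `b`. -/
lemma add_of_commuting_conjugates (hq : IsQuasimorphism φ) (hh : IsHomogeneous φ) {a b : H}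
    (t : ℕ → H)
    (haa : ∀ i j, i < j → Commute (t i * a * (t i)⁻¹) (t j * a * (t j)⁻¹))
    (hab : ∀ i j, i < j → Commute (t i * a * (t i)⁻¹) (t j * b * (t j)⁻¹))
    (hba : ∀ i j, i < j → Commute (t i * b * (t i)⁻¹) (t j * a * (t j)⁻¹))
    (hbb : ∀ i j, i < j → Commute (t i * b * (t i)⁻¹) (t j * b * (t j)⁻¹)) :
    φ (a * b) = φ a + φ b := by
  have hq' := hq
  obtain ⟨D, hD⟩ := hq
  have key : ∀ n : ℕ, |(n : ℝ) * (φ (a * b) - φ a - φ b)| ≤ D := by
    intro n
    have h1 := hD (pr (fun i => t i * a * (t i)⁻¹) n) (pr (fun i => t i * b * (t i)⁻¹) n)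
    have e1 : ∀ i, φ ((fun i => t i * a * (t i)⁻¹ * (t i * b * (t i)⁻¹)) i) = φ (a * b) := by
      intro i
      rw [← conj_inv hq' hh (t i) (a * b)]
      congr 1
      group
    have e2 : ∀ i j, i < j → Commute ((fun i => t i * a * (t i)⁻¹ * (t i * b * (t i)⁻¹)) i)
        ((fun i => t i * a * (t i)⁻¹ * (t i * b * (t i)⁻¹)) j) := by
      intro i j hij
      have h2 := (haa i j hij).mul_left (hba i j hij)
      have h3 := (hab i j hij).mul_left (hbb i j hij)
      exact h2.mul_right h3
    rw [pr_mul hba, pr_value hq' hh (c := φ a) (fun i => conj_inv hq' hh _ _) haa,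
      pr_value hq' hh (c := φ b) (fun i => conj_inv hq' hh _ _) hbb,
      pr_value hq' hh (c := φ (a * b)) e1 e2] at h1
    convert h1 using 2
    ring
  have := eq_zero_of_bdd key
  linarith

/-- A group with a homomorphism to the integers, whose kernel has commuting conjugates: every
homogeneous quasimorphism is a homomorphism. -/
theorem hom_of_displaceable (τ : H →* Multiplicative ℤ) (s : H)
    (hs : τ s = Multiplicative.ofAdd 1)
    (hcc : ∀ a b : H, τ a = 1 → τ b = 1 → ∃ m : ℕ, ∀ k : ℕ, m ≤ k →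
      Commute a (s ^ k * b * (s ^ k)⁻¹))
    (hq : IsQuasimorphism φ) (hh : IsHomogeneous φ) (g h : H) : φ (g * h) = φ g + φ h := by
  -- additivity on the kernel
  have hker : ∀ a b : H, τ a = 1 → τ b = 1 → φ (a * b) = φ a + φ b := by
    intro a b ha hb
    obtain ⟨m1, h1⟩ := hcc a a ha ha
    obtain ⟨m2, h2⟩ := hcc a b ha hb
    obtain ⟨m3, h3⟩ := hcc b a hb ha
    obtain ⟨m4, h4⟩ := hcc b b hb hb
    have conj_comm : ∀ (x y : H) (m : ℕ),
        (∀ k : ℕ, m ≤ k → Commute x (s ^ k * y * (s ^ k)⁻¹)) →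
        ∀ M : ℕ, m ≤ M → ∀ i j : ℕ, i < j →
        Commute (s ^ (M * i) * x * (s ^ (M * i))⁻¹) (s ^ (M * j) * y * (s ^ (M * j))⁻¹) := by
      intro x y m hk M hM i j hij
      have e : s ^ (M * j) * y * (s ^ (M * j))⁻¹ =
          s ^ (M * i) * (s ^ (M * (j - i)) * y * (s ^ (M * (j - i)))⁻¹) * (s ^ (M * i))⁻¹ := by
        have : M * j = M * i + M * (j - i) := by
          rw [← Nat.mul_add]; congr 1; omega
        rw [this, pow_add]; group
      rw [e]
      have h0 := hk (M * (j - i)) (hM.trans (Nat.le_mul_of_pos_right M (by omega)))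
      have h5 := congrArg (fun z => s ^ (M * i) * z * (s ^ (M * i))⁻¹) h0.eq
      show _ * _ = _ * _
      calc _ = s ^ (M * i) * (x * (s ^ (M * (j - i)) * y * (s ^ (M * (j - i)))⁻¹)) *
            (s ^ (M * i))⁻¹ := by group
        _ = s ^ (M * i) * ((s ^ (M * (j - i)) * y * (s ^ (M * (j - i)))⁻¹) * x) *
            (s ^ (M * i))⁻¹ := h5
        _ = _ := by group
    set M := m1 + m2 + m3 + m4 with hM
    exact add_of_commuting_conjugates hq hh (fun i => s ^ (M * i))
      (conj_comm a a m1 h1 M (by omega)) (conj_comm a b m2 h2 M (by omega))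
      (conj_comm b a m3 h3 M (by omega)) (conj_comm b b m4 h4 M (by omega))
  -- the homomorphism at bounded distance
  set k : H → ℤ := fun g => Multiplicative.toAdd (τ g) with hk
  have hτs : ∀ n : ℤ, τ (s ^ n) = Multiplicative.ofAdd n := by
    intro n
    rw [map_zpow, hs, ← ofAdd_zsmul]
    simp
  have hτn : ∀ g : H, τ (g * s ^ (-(k g))) = 1 := by
    intro g
    rw [map_mul, hτs]
    show τ g * Multiplicative.ofAdd (-(Multiplicative.toAdd (τ g))) = 1
    rw [ofAdd_neg, ofAdd_toAdd, mul_inv_cancel]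
  have kmul : ∀ g h : H, k (g * h) = k g + k h := by
    intro g h
    simp only [hk, map_mul, toAdd_mul]
  set l : H → ℝ := fun g => φ (g * s ^ (-(k g))) + k g * φ s with hl
  have ladd : ∀ g h : H, l (g * h) = l g + l h := by
    intro g h
    have e : g * h * s ^ (-(k (g * h))) =
        (g * s ^ (-(k g))) * (s ^ (k g) * (h * s ^ (-(k h))) * (s ^ (k g))⁻¹) := by
      rw [kmul]
      group
    have hc : τ (s ^ (k g) * (h * s ^ (-(k h))) * (s ^ (k g))⁻¹) = 1 := by
      rw [map_mul, map_mul, hτn h, mul_one, map_inv, mul_inv_cancel]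
    simp only [hl]
    rw [e, hker _ _ (hτn g) hc, conj_inv hq hh, kmul]
    push_cast
    ring
  obtain ⟨D, hD⟩ := hq
  have hbd : ∀ g : H, |φ g - l g| ≤ D := by
    intro g
    have h1 := hD (g * s ^ (-(k g))) (s ^ (k g))
    rw [hh s (k g)] at h1
    have e : g * s ^ (-(k g)) * s ^ (k g) = g := by group
    rw [e] at h1
    simp only [hl]
    convert h1 using 2
    ring
  have lpow : ∀ (g : H) (n : ℕ), l (g ^ n) = n * l g := by
    intro g n
    induction n with
    | zero =>
      have h1 := ladd 1 1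
      rw [mul_one] at h1
      simp
      linarith
    | succ n ih =>
      rw [pow_succ, ladd, ih]
      push_cast
      ring
  have heq : ∀ g : H, φ g = l g := by
    intro g
    have key : ∀ n : ℕ, |(n : ℝ) * (φ g - l g)| ≤ D := by
      intro n
      have h1 := hbd (g ^ n)
      rw [hom_pow hh, lpow] at h1
      convert h1 using 2
      ring
    have := eq_zero_of_bdd key
    linarith
  rw [heq, heq g, heq h, ladd]

end

end Pool.Agent.W5h69.QM
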