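import Mathlib

/-!
# Explicit isotopies of the one-point compactification of the plane

`Pool.Agent.W5h69.Sph`: the inversion, the push homeomorphisms
`u ↦ u + (1 - ‖u‖)⁺ a`, and continuity of families of homeomorphisms.
-/

open Set Filter Topology OnePoint

namespace Pool.Agent.W5h69.Sph

/-- the plane -/
abbrev E2 := ℝ × ℝ

/-- The sphere as the one-point compactification of the plane. -/
abbrev S2 := OnePoint (ℝ × ℝ)

/-- joint continuity of a family of homeomorphisms -/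
def ContFam {T : Type*} [TopologicalSpace T] (Φ : T → (S2 ≃ₜ S2)) : Prop :=
  Continuous fun p : T × S2 => Φ p.1 p.2

lemma ContFam.mul {T : Type*} [TopologicalSpace T] {Φ Ψ : T → (S2 ≃ₜ S2)}
    (h1 : ContFam Φ) (h2 : ContFam Ψ) : ContFam (fun t => Φ t * Ψ t) := by
  have : Continuous fun p : T × S2 => (p.1, Ψ p.1 p.2) := continuous_fst.prodMk h2
  exact Continuous.comp h1 this

lemma ContFam.const {T : Type*} [TopologicalSpace T] (g : S2 ≃ₜ S2) :
    ContFam (fun _ : T => g) := g.continuous.comp continuous_snd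

lemma ContFam.inv {T : Type*} [TopologicalSpace T] [CompactSpace T] [T2Space T]
    {Φ : T → (S2 ≃ₜ S2)} (h : ContFam Φ) : ContFam (fun t => (Φ t)⁻¹) := by
  let e : T × S2 ≃ T × S2 :=
    { toFun := fun p => (p.1, Φ p.1 p.2)
      invFun := fun p => (p.1, (Φ p.1).symm p.2)
      left_inv := fun p => by simp
      right_inv := fun p => by simp }
  have he : Continuous e := continuous_fst.prodMk h
  have := he.continuous_symm_of_equiv_compact_to_t2
  exact continuous_snd.comp this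

lemma ContFam.apply_const {T : Type*} [TopologicalSpace T] {Φ : T → (S2 ≃ₜ S2)}
    (h : ContFam Φ) (x : S2) : Continuous fun t => Φ t x :=
  Continuous.comp h (continuous_id.prodMk continuous_const)

/-- inversion -/
noncomputable def invFun (p : S2) : S2 :=
  p.elim ((0 : E2) : S2) (fun u => if u = 0 then ∞ else (((‖u‖ ^ 2)⁻¹ • u : E2) : S2))

@[simp] lemma invFun_infty : invFun ∞ = ((0 : E2) : S2) := rfl

@[simp] lemma invFun_zero : invFun ((0 : E2) : S2) = ∞ := by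
  simp [invFun]

lemma invFun_coe {u : E2} (hu : u ≠ 0) : invFun (u : S2) = (((‖u‖ ^ 2)⁻¹ • u : E2) : S2) := by
  simp [invFun, hu]

lemma norm_inv_smul {u : E2} (hu : u ≠ 0) : ‖(‖u‖ ^ 2)⁻¹ • u‖ = ‖u‖⁻¹ := by
  have h : ‖u‖ ≠ 0 := norm_ne_zero_iff.2 hu
  rw [norm_smul, norm_inv, norm_pow, norm_norm]
  field_simp

lemma inv_smul_ne_zero {u : E2} (hu : u ≠ 0) : (‖u‖ ^ 2)⁻¹ • u ≠ 0 := by
  have h : ‖u‖ ≠ 0 := norm_ne_zero_iff.2 hu
  exact smul_ne_zero (inv_ne_zero (pow_ne_zero 2 h)) hu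

lemma invFun_invFun (p : S2) : invFun (invFun p) = p := by
  induction p using OnePoint.rec with
  | infty => simp
  | coe u =>
    by_cases hu : u = 0
    · subst hu; simp
    · have h : ‖u‖ ≠ 0 := norm_ne_zero_iff.2 hu
      rw [invFun_coe hu, invFun_coe (inv_smul_ne_zero hu), norm_inv_smul hu, smul_smul]
      congr 1
      have : (‖u‖⁻¹ ^ 2)⁻¹ * (‖u‖ ^ 2)⁻¹ = 1 := by field_simp
      rw [this, one_smul]

lemma continuous_invFun : Continuous invFun := by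
  rw [OnePoint.continuous_iff]
  constructor
  · rw [coclosedCompact_eq_cocompact]
    have h1 : Tendsto (fun x : E2 => (‖x‖ ^ 2)⁻¹ • x) (cocompact E2) (𝓝 0) := by
      rw [tendsto_zero_iff_norm_tendsto_zero]
      have h2 : Tendsto (fun x : E2 => ‖x‖⁻¹) (cocompact E2) (𝓝 0) :=
        tendsto_inv_atTop_zero.comp (tendsto_norm_cocompact_atTop)
      refine h2.congr' ?_
      have : ∀ᶠ x : E2 in cocompact E2, x ≠ 0 := by
        have := (isCompact_singleton (x := (0 : E2))).compl_mem_cocompact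
        filter_upwards [this] with x hx
        simpa using hx
      filter_upwards [this] with x hx
      rw [norm_inv_smul hx]
    have h3 : Tendsto (fun x : E2 => (((‖x‖ ^ 2)⁻¹ • x : E2) : S2)) (cocompact E2)
        (𝓝 ((0 : E2) : S2)) := (OnePoint.continuous_coe.tendsto 0).comp h1
    refine h3.congr' ?_
    have : ∀ᶠ x : E2 in cocompact E2, x ≠ 0 := by
      have := (isCompact_singleton (x := (0 : E2))).compl_mem_cocompact
      filter_upwards [this] with x hx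
      simpa using hx
    filter_upwards [this] with x hx
    rw [invFun_coe hx]
  · rw [continuous_iff_continuousAt]
    intro x
    by_cases hx : x = 0
    · subst hx
      rw [← continuousWithinAt_compl_self]
      unfold ContinuousWithinAt
      simp only [invFun_zero]
      have h1 : Tendsto (fun x : E2 => (‖x‖ ^ 2)⁻¹ • x) (𝓝[{0}ᶜ] 0) (cocompact E2) := by
        rw [← Metric.cobounded_eq_cocompact, ← tendsto_norm_atTop_iff_cobounded]
        have h2 : Tendsto (fun x : E2 => ‖x‖⁻¹) (𝓝[{0}ᶜ] 0) atTop :=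
          tendsto_inv_nhdsGT_zero.comp (tendsto_norm_nhdsNE_zero)
        refine h2.congr' ?_
        filter_upwards [self_mem_nhdsWithin] with x hx
        rw [norm_inv_smul hx]
      have h3 := (OnePoint.tendsto_coe_infty (X := E2))
      rw [coclosedCompact_eq_cocompact] at h3
      refine (h3.comp h1).congr' ?_
      filter_upwards [self_mem_nhdsWithin] with x hx
      simp only [Function.comp]
      rw [invFun_coe hx]
    · have h1 : ContinuousAt (fun x : E2 => (((‖x‖ ^ 2)⁻¹ • x : E2) : S2)) x := by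
        apply OnePoint.continuous_coe.continuousAt.comp
        have h2 : ContinuousAt (fun x : E2 => (‖x‖ ^ 2)⁻¹) x :=
          ContinuousAt.inv₀ (continuous_norm.pow 2).continuousAt
            (pow_ne_zero 2 (norm_ne_zero_iff.2 hx))
        exact h2.smul continuousAt_id
      refine h1.congr ?_
      filter_upwards [isOpen_ne.mem_nhds hx] with y hy
      rw [invFun_coe hy]

/-- inversion as a homeomorphism of the sphere -/
noncomputable def Inv : S2 ≃ₜ S2 where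
  toFun := invFun
  invFun := invFun
  left_inv := invFun_invFun
  right_inv := invFun_invFun
  continuous_toFun := continuous_invFun
  continuous_invFun := continuous_invFun

@[simp] lemma Inv_infty : Inv ∞ = ((0 : E2) : S2) := rfl
@[simp] lemma Inv_zero : Inv ((0 : E2) : S2) = ∞ := invFun_zero
lemma Inv_coe {u : E2} (hu : u ≠ 0) : Inv (u : S2) = (((‖u‖ ^ 2)⁻¹ • u : E2) : S2) :=
  invFun_coe hu
@[simp] lemma Inv_Inv (p : S2) : Inv (Inv p) = p := invFun_invFun p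

/-- push function -/
noncomputable def pushFun (a : E2) (u : E2) : E2 := u + (max (1 - ‖u‖) 0) • a

lemma approx_push (a : E2) : ApproximatesLinearOn (pushFun a)
    ((ContinuousLinearEquiv.refl ℝ E2 : E2 ≃L[ℝ] E2) : E2 →L[ℝ] E2) univ ‖a‖₊ := by
  intro x _ y _
  simp only [pushFun, ContinuousLinearEquiv.coe_refl, ContinuousLinearMap.coe_id', id_eq]
  have h1 : x + max (1 - ‖x‖) 0 • a - (y + max (1 - ‖y‖) 0 • a) - (x - y)
      = (max (1 - ‖x‖) 0 - max (1 - ‖y‖) 0) • a := by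
    rw [sub_smul]; abel
  rw [h1, norm_smul, mul_comm]
  have h2 : ‖max (1 - ‖x‖) 0 - max (1 - ‖y‖) 0‖ ≤ ‖x - y‖ := by
    calc ‖max (1 - ‖x‖) 0 - max (1 - ‖y‖) 0‖ ≤ |(1 - ‖x‖) - (1 - ‖y‖)| := by
          exact abs_max_sub_max_le_abs _ _ _
      _ = |‖y‖ - ‖x‖| := by congr 1; ring
      _ ≤ ‖y - x‖ := abs_norm_sub_norm_le _ _
      _ = ‖x - y‖ := norm_sub_rev _ _
  simp only [coe_nnnorm]
  exact mul_le_mul_of_nonneg_left h2 (norm_nonneg _)

/-- push homeomorphism of the plane -/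
noncomputable def push (a : E2) (ha : ‖a‖ < 1) : E2 ≃ₜ E2 :=
  (approx_push a).toHomeomorph (pushFun a) (Or.inr (by
    have h : (‖(((ContinuousLinearEquiv.refl ℝ E2).symm : E2 ≃L[ℝ] E2) : E2 →L[ℝ] E2)‖₊) = 1 := by
      have : ‖(ContinuousLinearMap.id ℝ E2)‖₊ = 1 := by
        ext
        exact ContinuousLinearMap.norm_id
      exact this
    rw [h, inv_one]
    exact_mod_cast ha))

@[simp] lemma push_apply (a : E2) (ha : ‖a‖ < 1) (u : E2) : push a ha u = pushFun a u := rfl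

lemma pushFun_of_one_le {a u : E2} (hu : 1 ≤ ‖u‖) : pushFun a u = u := by
  have : max (1 - ‖u‖) 0 = 0 := max_eq_right (by linarith)
  simp [pushFun, this]

@[simp] lemma pushFun_zero (a : E2) : pushFun a 0 = a := by
  simp [pushFun]

@[simp] lemma pushFun_zero' (u : E2) : pushFun 0 u = u := by
  simp [pushFun]

/-- the push, extended to the sphere; `a` is bundled with its norm bound. -/
noncomputable def spush (a : {a : E2 // ‖a‖ < 1}) : S2 ≃ₜ S2 := (push a.1 a.2).onePointCongr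

@[simp] lemma spush_infty (a : {a : E2 // ‖a‖ < 1}) : spush a ∞ = ∞ := rfl

@[simp] lemma spush_coe (a : {a : E2 // ‖a‖ < 1}) (u : E2) :
    spush a (u : S2) = ((pushFun a.1 u : E2) : S2) := rfl

lemma contFam_spush : ContFam spush := by
  unfold ContFam
  rw [continuous_iff_continuousAt]
  rintro ⟨a, p⟩
  induction p using OnePoint.rec with
  | infty =>
    have h1 : ContinuousAt (fun p : {a : E2 // ‖a‖ < 1} × S2 => p.2) (a, ∞) :=
      continuous_snd.continuousAt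
    refine h1.congr ?_
    have h2 : IsOpen ((((↑) : E2 → S2) '' (Metric.closedBall (0 : E2) 1))ᶜ) :=
      OnePoint.isOpen_compl_image_coe.2
        ⟨Metric.isClosed_closedBall, isCompact_closedBall _ _⟩
    have h3 : {p : {a : E2 // ‖a‖ < 1} × S2 |
        p.2 ∈ ((((↑) : E2 → S2) '' (Metric.closedBall (0 : E2) 1))ᶜ)} ∈
        𝓝 ((a, ∞) : {a : E2 // ‖a‖ < 1} × S2) := by
      apply (h2.preimage continuous_snd).mem_nhds
      exact OnePoint.infty_notMem_image_coe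
    filter_upwards [h3]
    rintro ⟨b, q⟩ hq
    induction q using OnePoint.rec with
    | infty => simp
    | coe u =>
      simp only [spush_coe]
      rw [pushFun_of_one_le]
      by_contra hlt
      push Not at hlt
      apply hq
      exact ⟨u, by simpa using hlt.le, rfl⟩
  | coe u =>
    have hemb : IsOpenEmbedding (Prod.map (id : {a : E2 // ‖a‖ < 1} → _) ((↑) : E2 → S2)) :=
      IsOpenEmbedding.id.prodMap OnePoint.isOpenEmbedding_coe
    have := (hemb.continuousAt_iff (g := fun p : {a : E2 // ‖a‖ < 1} × S2 => spush p.1 p.2)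
      (x := (a, u))).1
    refine this ?_
    have h4 : Continuous (fun p : {a : E2 // ‖a‖ < 1} × E2 => ((pushFun p.1.1 p.2 : E2) : S2)) := by
      apply OnePoint.continuous_coe.comp
      unfold pushFun
      fun_prop
    exact h4.continuousAt

/-- The push in the inverted chart: supported outside the unit ball, moves `∞`. -/
noncomputable def Nn (a : {a : E2 // ‖a‖ < 1}) : S2 ≃ₜ S2 := Inv * spush a * Inv

lemma Nn_apply (a : {a : E2 // ‖a‖ < 1}) (p : S2) : Nn a p = Inv (spush a (Inv p)) := rfl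

lemma contFam_Nn : ContFam Nn :=
  ((ContFam.const Inv).mul contFam_spush).mul (ContFam.const Inv)

lemma ContFam.comp {T T' : Type*} [TopologicalSpace T] [TopologicalSpace T']
    {Φ : T → (S2 ≃ₜ S2)} (h : ContFam Φ) {g : T' → T} (hg : Continuous g) :
    ContFam (fun t => Φ (g t)) :=
  Continuous.comp h ((hg.comp continuous_fst).prodMk continuous_snd)

lemma Nn_infty (a : {a : E2 // ‖a‖ < 1}) : Nn a ∞ = Inv ((a.1 : E2) : S2) := by
  rw [Nn_apply, Inv_infty, spush_coe, pushFun_zero]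

lemma Nn_zero (h : ‖(0 : E2)‖ < 1) : Nn ⟨0, h⟩ = 1 := by
  ext p
  rw [Nn_apply]
  have : spush ⟨0, h⟩ (Inv p) = Inv p := by
    generalize Inv p = q
    induction q using OnePoint.rec with
    | infty => rfl
    | coe u => rw [spush_coe, pushFun_zero']
  rw [this, Inv_Inv]
  rfl

lemma Nn_of_norm_le (a : {a : E2 // ‖a‖ < 1}) {u : E2} (hu : ‖u‖ ≤ 1) :
    Nn a (u : S2) = u := by
  rw [Nn_apply]
  by_cases h0 : u = 0
  · subst h0; simp
  · rw [Inv_coe h0, spush_coe, pushFun_of_one_le, ← Inv_coe h0, Inv_Inv]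
    rw [norm_inv_smul h0]
    exact (one_le_inv₀ (norm_pos_iff.2 h0)).2 hu

/-- points of the negative first axis -/
def ax (s : ℝ) : E2 := (-s, 0)

lemma norm_ax (s : ℝ) : ‖ax s‖ = |s| := by
  simp [ax, Prod.norm_def]

lemma Inv_ax {s : ℝ} (hs : 0 < s) : Inv ((ax s : E2) : S2) = ((ax (s⁻¹) : E2) : S2) := by
  have h0 : ax s ≠ 0 := by
    intro h
    have := congrArg Prod.fst h
    simp [ax] at this
    exact hs.ne' this
  rw [Inv_coe h0, norm_ax, abs_of_pos hs]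
  congr 1
  simp only [ax, Prod.smul_mk, smul_eq_mul, mul_zero, Prod.mk.injEq, and_true]
  field_simp

lemma pushFun_ax {κ s : ℝ} (hs : 0 ≤ s) (hs1 : s ≤ 1) :
    pushFun (ax κ) (ax s) = ax (s + (1 - s) * κ) := by
  unfold pushFun
  rw [norm_ax, abs_of_nonneg hs, max_eq_left (by linarith)]
  simp only [ax, Prod.smul_mk, smul_eq_mul, mul_zero, Prod.mk_add_mk, add_zero, Prod.mk.injEq,
    and_true]
  ring

lemma Nn_ax {κ : ℝ} (hκ : 0 < κ) (h : ‖ax κ‖ < 1) {s : ℝ} (hs : 1 ≤ s) :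
    Nn ⟨ax κ, h⟩ ((ax s : E2) : S2) = ((ax ((s⁻¹ + (1 - s⁻¹) * κ)⁻¹) : E2) : S2) := by
  have hs0 : 0 < s := by linarith
  have h1 : s⁻¹ ≤ 1 := inv_le_one_of_one_le₀ hs
  have h2 : 0 < s⁻¹ := inv_pos.2 hs0
  rw [Nn_apply, Inv_ax hs0, spush_coe, pushFun_ax h2.le h1, Inv_ax]
  have : 0 ≤ (1 - s⁻¹) * κ := mul_nonneg (by linarith) hκ.le
  linarith

/-- the radial half line outside the unit ball, together with `∞` -/
def axRay : Set S2 := insert ∞ ((fun s : ℝ => ((ax s : E2) : S2)) '' Ici 1)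

/-- the radial segment -/
def axSeg (κ : ℝ) : Set S2 := (fun s : ℝ => ((ax s : E2) : S2)) '' Icc 1 κ⁻¹

lemma Nn_image_axRay {κ : ℝ} (hκ : 0 < κ) (hκ1 : κ < 1) (h : ‖ax κ‖ < 1) :
    Nn ⟨ax κ, h⟩ '' axRay = axSeg κ := by
  ext p
  constructor
  · rintro ⟨q, hq, rfl⟩
    rcases hq with rfl | ⟨s, hs, rfl⟩
    · rw [Nn_infty, Inv_ax hκ]
      exact ⟨κ⁻¹, ⟨(one_le_inv₀ hκ).2 hκ1.le, le_rfl⟩, rfl⟩
    · have hs' : (1 : ℝ) ≤ s := hs
      simp only
      rw [Nn_ax hκ h hs']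
      have hs0 : 0 < s := by linarith
      have h1 : s⁻¹ ≤ 1 := inv_le_one_of_one_le₀ hs'
      have h2 : 0 < s⁻¹ := inv_pos.2 hs0
      refine ⟨_, ⟨?_, ?_⟩, rfl⟩
      · rw [one_le_inv₀ (by nlinarith)]
        nlinarith
      · apply inv_anti₀ hκ
        nlinarith
  · rintro ⟨s, ⟨hs1, hs2⟩, rfl⟩
    have hs0 : 0 < s := by linarith
    have hτ1 : s⁻¹ ≤ 1 := inv_le_one_of_one_le₀ hs1
    have hτ2 : κ ≤ s⁻¹ := by
      rw [le_inv_comm₀ hκ hs0]; exact hs2
    set σ : ℝ := (s⁻¹ - κ) / (1 - κ) with hσ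
    have h1κ : 0 < 1 - κ := by linarith
    have hσ0 : 0 ≤ σ := div_nonneg (by linarith) h1κ.le
    have hσ1 : σ ≤ 1 := by rw [hσ, div_le_one h1κ]; linarith
    have hσe : σ + (1 - σ) * κ = s⁻¹ := by
      rw [hσ]; field_simp; ring
    rcases eq_or_lt_of_le hσ0 with h0 | h0
    · refine ⟨∞, Or.inl rfl, ?_⟩
      rw [Nn_infty, Inv_ax hκ]
      rw [← h0] at hσe
      have : κ = s⁻¹ := by linarith
      simp only
      rw [this, inv_inv]
    · refine ⟨((ax σ⁻¹ : E2) : S2), Or.inr ⟨σ⁻¹, (one_le_inv₀ h0).2 hσ1, rfl⟩, ?_⟩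
      rw [Nn_ax hκ h ((one_le_inv₀ h0).2 hσ1), inv_inv, hσe, inv_inv]

/-- translation -/
noncomputable def tr (c : E2) (ρ : ℝ) (hρ : ρ ≠ 0) : E2 ≃ₜ E2 :=
  (Homeomorph.addRight (-c)).trans (Homeomorph.smulOfNeZero ρ⁻¹ (inv_ne_zero hρ))

lemma tr_apply (c : E2) (ρ : ℝ) (hρ : ρ ≠ 0) (x : E2) : tr c ρ hρ x = ρ⁻¹ • (x - c) := by
  simp [tr, sub_eq_add_neg]

/-- the chart centred at `c` of radius `ρ` extended to the sphere -/
noncomputable def Tr (c : E2) (ρ : ℝ) (hρ : ρ ≠ 0) : S2 ≃ₜ S2 := (tr c ρ hρ).onePointCongr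

@[simp] lemma Tr_infty (c : E2) (ρ : ℝ) (hρ : ρ ≠ 0) : Tr c ρ hρ ∞ = ∞ := rfl

lemma Tr_coe (c : E2) (ρ : ℝ) (hρ : ρ ≠ 0) (x : E2) :
    Tr c ρ hρ (x : S2) = ((ρ⁻¹ • (x - c) : E2) : S2) := by
  rw [← tr_apply c ρ hρ]; rfl

/-- horizontal ray from infinity to `(xs, y)` -/
def hray (xs y : ℝ) : Set S2 := insert ∞ ((fun x : ℝ => (((x, y) : E2) : S2)) '' Iic xs)

/-- horizontal segment from `(w, y)` to `(xs, y)` -/
def hseg (w xs y : ℝ) : Set S2 := (fun x : ℝ => (((x, y) : E2) : S2)) '' Icc w xs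

lemma Tr_hray (xs y : ℝ) : Tr (xs + 1, y) 1 one_ne_zero '' hray xs y = axRay := by
  ext p
  constructor
  · rintro ⟨q, hq, rfl⟩
    rcases hq with rfl | ⟨x, hx, rfl⟩
    · exact Or.inl rfl
    · refine Or.inr ⟨xs + 1 - x, ?_, ?_⟩
      · have : x ≤ xs := hx
        show (1 : ℝ) ≤ xs + 1 - x
        linarith
      · simp only
        rw [Tr_coe]
        simp [ax]
  · rintro (rfl | ⟨s, hs, rfl⟩)
    · exact ⟨∞, Or.inl rfl, rfl⟩
    · have hs' : (1 : ℝ) ≤ s := hs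
      refine ⟨(((xs + 1 - s, y) : E2) : S2), Or.inr ⟨_, ?_, rfl⟩, ?_⟩
      · show xs + 1 - s ≤ xs
        linarith
      · rw [Tr_coe]
        simp [ax]

lemma Tr_hseg (w xs y : ℝ) : Tr (xs + 1, y) 1 one_ne_zero '' hseg w xs y
    = (fun s : ℝ => ((ax s : E2) : S2)) '' Icc 1 (xs + 1 - w) := by
  ext p
  constructor
  · rintro ⟨q, ⟨x, ⟨hx1, hx2⟩, rfl⟩, rfl⟩
    refine ⟨xs + 1 - x, ⟨by linarith, by linarith⟩, ?_⟩
    simp only
    rw [Tr_coe]
    simp [ax]
  · rintro ⟨s, ⟨hs1, hs2⟩, rfl⟩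
    refine ⟨(((xs + 1 - s, y) : E2) : S2), ⟨_, ⟨by linarith, by linarith⟩, rfl⟩, ?_⟩
    rw [Tr_coe]
    simp [ax]

/-- **Pull lemma.**  The point at infinity can be pulled back along a horizontal ray. -/
lemma pull (xs y w : ℝ) (hw : w < xs) : ∃ P : unitInterval → (S2 ≃ₜ S2), ContFam P ∧ P 0 = 1 ∧
    (∀ t, ∀ q : E2, xs ≤ q.1 → q.1 ≤ xs + 2 → |q.2 - y| ≤ 1 → P t (q : S2) = q) ∧
    (∀ t, P t ∞ = ∞ ∨ ∃ x ≤ w, P t ∞ = (((x, y) : E2) : S2)) ∧
    P 1 ∞ = (((w, y) : E2) : S2) ∧ P 1 '' hray xs y = hseg w xs y := by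
  set κ : ℝ := (xs + 1 - w)⁻¹ with hκ
  have hd : 1 < xs + 1 - w := by linarith
  have hκ0 : 0 < κ := inv_pos.2 (by linarith)
  have hκ1 : κ < 1 := inv_lt_one_of_one_lt₀ hd
  have hb : ∀ t : unitInterval, ‖ax ((t : ℝ) * κ)‖ < 1 := by
    intro t
    rw [norm_ax, abs_of_nonneg (mul_nonneg t.2.1 hκ0.le)]
    calc (t : ℝ) * κ ≤ 1 * κ := mul_le_mul_of_nonneg_right t.2.2 hκ0.le
      _ < 1 := by linarith
  let a : unitInterval → {a : E2 // ‖a‖ < 1} := fun t => ⟨ax ((t : ℝ) * κ), hb t⟩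
  have ha : Continuous a := by
    apply Continuous.subtype_mk
    unfold ax
    fun_prop
  have hone : (1 : ℝ) ≠ 0 := one_ne_zero
  let T := Tr (xs + 1, y) 1 one_ne_zero
  let P : unitInterval → (S2 ≃ₜ S2) := fun t => T⁻¹ * Nn (a t) * T
  have hPapp : ∀ t p, P t p = T.symm (Nn (a t) (T p)) := fun t p => rfl
  have hTinf : T ∞ = ∞ := rfl
  have hTsymm : ∀ s : ℝ, T.symm ((ax s : E2) : S2) = (((xs + 1 - s, y) : E2) : S2) := by
    intro s
    rw [Homeomorph.symm_apply_eq]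
    show _ = Tr (xs + 1, y) 1 one_ne_zero _
    rw [Tr_coe]
    simp [ax]
  have hTsymm_inf : T.symm ∞ = ∞ := rfl
  have hPinf : ∀ t : unitInterval, 0 < (t : ℝ) →
      P t ∞ = (((xs + 1 - (xs + 1 - w) / t, y) : E2) : S2) := by
    intro t ht
    rw [hPapp, hTinf, Nn_infty]
    show T.symm (Inv ((ax ((t : ℝ) * κ) : E2) : S2)) = _
    rw [Inv_ax (mul_pos ht hκ0), hTsymm, hκ, mul_inv, inv_inv, div_eq_mul_inv, mul_comm (t : ℝ)⁻¹]
  refine ⟨P, ?_, ?_, ?_, ?_, ?_, ?_⟩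
  · exact ((ContFam.const T⁻¹).mul (contFam_Nn.comp ha)).mul (ContFam.const T)
  · have h0 : a 0 = ⟨0, by simp⟩ := by
      apply Subtype.ext
      show ax (((0 : unitInterval) : ℝ) * κ) = 0
      simp [ax]
    show T⁻¹ * Nn (a 0) * T = 1
    rw [h0, Nn_zero, mul_one, inv_mul_cancel]
  · intro t q h1 h2 h3
    rw [hPapp]
    have h4 : T (q : S2) = ((((1 : ℝ)⁻¹ • (q - (xs + 1, y))) : E2) : S2) := Tr_coe _ _ _ _
    rw [h4, Nn_of_norm_le, ← h4, Homeomorph.symm_apply_apply]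
    rw [inv_one, one_smul, Prod.norm_def]
    simp only [Prod.fst_sub, Prod.snd_sub, Real.norm_eq_abs]
    apply max_le _ h3
    rw [abs_le]
    constructor <;> linarith
  · intro t
    rcases eq_or_lt_of_le t.2.1 with h0 | h0
    · left
      have : t = 0 := Subtype.ext h0.symm
      subst this
      rw [hPapp, hTinf, Nn_infty]
      show T.symm (Inv ((ax (((0 : unitInterval) : ℝ) * κ) : E2) : S2)) = _
      have : ax (((0 : unitInterval) : ℝ) * κ) = 0 := by simp [ax]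
      rw [this, Inv_zero, hTsymm_inf]
    · right
      refine ⟨_, ?_, hPinf t h0⟩
      have : (xs + 1 - w) ≤ (xs + 1 - w) / t := by
        rw [le_div_iff₀ h0]
        have := t.2.2
        nlinarith
      linarith
  · rw [hPinf 1 (by simp)]
    simp
  · have h1 : P 1 '' hray xs y = T.symm '' (Nn (a 1) '' (T '' hray xs y)) := by
      rw [image_image, image_image]
      rfl
    rw [h1]
    have ha1 : a 1 = ⟨ax κ, by rw [norm_ax, abs_of_pos hκ0]; exact hκ1⟩ := by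
      apply Subtype.ext
      show ax (((1 : unitInterval) : ℝ) * κ) = ax κ
      simp
    rw [show T '' hray xs y = axRay from Tr_hray xs y, ha1, Nn_image_axRay hκ0 hκ1]
    have h2 : axSeg κ = T '' hseg w xs y := by
      rw [show T '' hseg w xs y = _ from Tr_hseg w xs y]
      unfold axSeg
      rw [hκ, inv_inv]
    rw [h2, image_image]
    simp

/-- conjugated push -/
noncomputable def Ee (c : E2) (ρ : ℝ) (hρ : ρ ≠ 0) (a : {a : E2 // ‖a‖ < 1}) : S2 ≃ₜ S2 :=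
  (Tr c ρ hρ)⁻¹ * Nn a * Tr c ρ hρ

lemma Ee_infty (c : E2) (ρ : ℝ) (hρ : ρ ≠ 0) (a : {a : E2 // ‖a‖ < 1}) :
    Ee c ρ hρ a ∞ = (Tr c ρ hρ).symm (Inv ((a.1 : E2) : S2)) := by
  show (Tr c ρ hρ).symm (Nn a (Tr c ρ hρ ∞)) = _
  rw [Tr_infty, Nn_infty]

lemma Ee_of_norm_le (c : E2) (ρ : ℝ) (hρ : 0 < ρ) (a : {a : E2 // ‖a‖ < 1}) {q : E2}
    (hq : ‖q - c‖ ≤ ρ) : Ee c ρ hρ.ne' a (q : S2) = q := by
  show (Tr c ρ hρ.ne').symm (Nn a (Tr c ρ hρ.ne' (q : S2))) = _
  have h4 : Tr c ρ hρ.ne' (q : S2) = ((ρ⁻¹ • (q - c) : E2) : S2) := Tr_coe _ _ _ _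
  rw [h4, Nn_of_norm_le, ← h4, Homeomorph.symm_apply_apply]
  rw [norm_smul, norm_inv, Real.norm_of_nonneg hρ.le, inv_mul_le_one₀ hρ]
  exact hq

/-- every point outside the disc is the image of infinity under a push -/
lemma exists_Ee (c : E2) (ρ : ℝ) (hρ : 0 < ρ) (p : S2) (hp : ∀ q : E2, p = q → ρ < ‖q - c‖) :
    ∃ a : {a : E2 // ‖a‖ < 1}, Inv (Tr c ρ hρ.ne' p) = ((a.1 : E2) : S2) := by
  induction p using OnePoint.rec with
  | infty => exact ⟨⟨0, by simp⟩, rfl⟩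
  | coe q =>
    have h1 := hp q rfl
    rw [Tr_coe]
    have h2 : 1 < ‖ρ⁻¹ • (q - c)‖ := by
      rw [norm_smul, norm_inv, Real.norm_of_nonneg hρ.le, inv_mul_eq_div, one_lt_div hρ]
      exact h1
    have h3 : ρ⁻¹ • (q - c) ≠ 0 := by
      intro h
      rw [h, norm_zero] at h2
      linarith
    refine ⟨⟨_, ?_⟩, Inv_coe h3⟩
    rw [norm_inv_smul h3]
    exact inv_lt_one_of_one_lt₀ h2

/-- **Correction lemma.**  An isotopy moving `∞` in the complement of a disc can be corrected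
to fix `∞`. -/
lemma correct (c : E2) (ρ : ℝ) (hρ : 0 < ρ) (K : Set E2) (hK : ∀ q ∈ K, ‖q - c‖ ≤ ρ)
    (Φ : unitInterval → (S2 ≃ₜ S2)) (hΦ : ContFam Φ) (h0 : Φ 0 = 1)
    (hfix : ∀ t, ∀ q ∈ K, Φ t ((q : E2) : S2) = q)
    (hinf : ∀ t, ∀ q : E2, Φ t ∞ = q → ρ < ‖q - c‖)
    (a₁ : {a : E2 // ‖a‖ < 1}) (ha₁ : Ee c ρ hρ.ne' a₁ ∞ = Φ 1 ∞) :
    ∃ Ψ : unitInterval → (S2 ≃ₜ S2), ContFam Ψ ∧ Ψ 0 = 1 ∧
      (∀ t, ∀ q ∈ K, Ψ t ((q : E2) : S2) = q) ∧ (∀ t, Ψ t ∞ = ∞) ∧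
      Ψ 1 = (Ee c ρ hρ.ne' a₁)⁻¹ * Φ 1 := by
  choose a ha using fun t => exists_Ee c ρ hρ (Φ t ∞) (hinf t)
  have hac : Continuous a := by
    have h1 : IsInducing (fun b : {a : E2 // ‖a‖ < 1} => ((b.1 : E2) : S2)) :=
      (OnePoint.isOpenEmbedding_coe.isInducing).comp IsInducing.subtypeVal
    rw [h1.continuous_iff]
    have h2 : (fun b : {a : E2 // ‖a‖ < 1} => ((b.1 : E2) : S2)) ∘ a
        = fun t => Inv (Tr c ρ hρ.ne' (Φ t ∞)) := by
      funext t
      exact (ha t).symm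
    rw [h2]
    exact Inv.continuous.comp ((Tr c ρ hρ.ne').continuous.comp (hΦ.apply_const ∞))
  have hEinf : ∀ t, Ee c ρ hρ.ne' (a t) ∞ = Φ t ∞ := by
    intro t
    rw [Ee_infty, ← ha t, Inv_Inv, Homeomorph.symm_apply_apply]
  have ha0 : a 0 = ⟨0, by simp⟩ := by
    have h1 := ha 0
    rw [h0] at h1
    have h2 : ((0 : E2) : S2) = (((a 0).1 : E2) : S2) := h1
    exact Subtype.ext (OnePoint.coe_injective h2).symm
  have ha1 : a 1 = a₁ := by
    have h1 := ha 1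
    rw [← ha₁, Ee_infty, Homeomorph.apply_symm_apply, Inv_Inv] at h1
    exact Subtype.ext (OnePoint.coe_injective h1).symm
  refine ⟨fun t => (Ee c ρ hρ.ne' (a t))⁻¹ * Φ t, ?_, ?_, ?_, ?_, ?_⟩
  · have h3 : ContFam (fun t => Ee c ρ hρ.ne' (a t)) :=
      ((ContFam.const (Tr c ρ hρ.ne')⁻¹).mul (contFam_Nn.comp hac)).mul
        (ContFam.const (Tr c ρ hρ.ne'))
    exact h3.inv.mul hΦ
  · show (Ee c ρ hρ.ne' (a 0))⁻¹ * Φ 0 = 1
    rw [h0, ha0]
    unfold Ee
    rw [Nn_zero]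
    simp
  · intro t q hq
    show (Ee c ρ hρ.ne' (a t)).symm (Φ t _) = _
    rw [hfix t q hq, Homeomorph.symm_apply_eq, Ee_of_norm_le c ρ hρ _ (hK q hq)]
  · intro t
    show (Ee c ρ hρ.ne' (a t)).symm (Φ t ∞) = _
    rw [Homeomorph.symm_apply_eq, hEinf]
  · show (Ee c ρ hρ.ne' (a 1))⁻¹ * Φ 1 = _
    rw [ha1]

end Pool.Agent.W5h69.Sph
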