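import Mathlib
import Pool.Agent.W5h69.Sphere

/-!
# The ray graph of a closed set in the plane, and the action of homeomorphisms
-/

open Set Filter Topology OnePoint

namespace Pool.Agent.W5h69.RG

open Pool.Agent.W5h69.Sph

/-- A ray for `C`: an injective continuous path in the sphere `ℝ² ∪ {∞}` from `∞` to a point of
`C`, whose interior lies in `ℝ² \ C`. -/
structure Ray (C : Set (ℝ × ℝ)) where
  /-- the path -/
  arc : unitInterval → OnePoint (ℝ × ℝ)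
  cont : Continuous arc
  inj : Function.Injective arc
  start : arc 0 = ∞
  finish : ∃ c ∈ C, arc 1 = ((c : ℝ × ℝ) : OnePoint (ℝ × ℝ))
  interior : ∀ t, t ≠ 0 → t ≠ 1 → ∃ z ∉ C, arc t = ((z : ℝ × ℝ) : OnePoint (ℝ × ℝ))

/-- the arc as a subset of the sphere -/
def Ray.image {C : Set (ℝ × ℝ)} (α : Ray C) : Set (OnePoint (ℝ × ℝ)) := range α.arc

/-- Two subsets of the sphere are isotopic relative to `C ∪ {∞}`: some isotopy `Φ` of the sphere
(a jointly continuous path of homeomorphisms starting at the identity) which fixes `∞` and every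
point of `C` at all times carries the first onto the second. -/
def Isotopic (C : Set (ℝ × ℝ)) (A B : Set (OnePoint (ℝ × ℝ))) : Prop :=
  ∃ Φ : unitInterval → (OnePoint (ℝ × ℝ) ≃ₜ OnePoint (ℝ × ℝ)),
    Continuous (fun p : unitInterval × OnePoint (ℝ × ℝ) => Φ p.1 p.2) ∧
    (∀ x, Φ 0 x = x) ∧ (∀ t, Φ t ∞ = ∞) ∧
    (∀ t, ∀ c ∈ C, Φ t ((c : ℝ × ℝ) : OnePoint (ℝ × ℝ)) = c) ∧ Φ 1 '' A = B

/-- group form: homeomorphisms isotopic to the identity relative to `C ∪ {∞}` -/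
def IsoId (C : Set (ℝ × ℝ)) (g : S2 ≃ₜ S2) : Prop :=
  ∃ Φ : unitInterval → (S2 ≃ₜ S2), ContFam Φ ∧ Φ 0 = 1 ∧ (∀ t, ∀ c ∈ C, Φ t ((c : E2) : S2) = c) ∧
    (∀ t, Φ t ∞ = ∞) ∧ Φ 1 = g

lemma isotopic_iff (C : Set (ℝ × ℝ)) (A B : Set S2) :
    Isotopic C A B ↔ ∃ g, IsoId C g ∧ g '' A = B := by
  constructor
  · rintro ⟨Φ, h1, h2, h3, h4, h5⟩
    exact ⟨Φ 1, ⟨Φ, h1, Homeomorph.ext h2, h4, h3, rfl⟩, h5⟩
  · rintro ⟨g, ⟨Φ, h1, h2, h3, h4, rfl⟩, h6⟩
    exact ⟨Φ, h1, fun x => by rw [h2]; rfl, h4, h3, h6⟩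

lemma IsoId.one (C : Set (ℝ × ℝ)) : IsoId C 1 :=
  ⟨fun _ => 1, ContFam.const 1, rfl, fun _ _ _ => rfl, fun _ => rfl, rfl⟩

lemma IsoId.mul {C : Set (ℝ × ℝ)} {g h : S2 ≃ₜ S2} (hg : IsoId C g) (hh : IsoId C h) :
    IsoId C (g * h) := by
  obtain ⟨Φ, h1, h2, h3, h4, rfl⟩ := hg
  obtain ⟨Ψ, k1, k2, k3, k4, rfl⟩ := hh
  refine ⟨fun t => Φ t * Ψ t, h1.mul k1, ?_, ?_, ?_, rfl⟩
  · show Φ 0 * Ψ 0 = 1
    rw [h2, k2, one_mul]
  · intro t c hc
    show Φ t (Ψ t _) = _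
    rw [k3 t c hc, h3 t c hc]
  · intro t
    show Φ t (Ψ t _) = _
    rw [k4, h4]

lemma IsoId.inv {C : Set (ℝ × ℝ)} {g : S2 ≃ₜ S2} (hg : IsoId C g) : IsoId C g⁻¹ := by
  obtain ⟨Φ, h1, h2, h3, h4, rfl⟩ := hg
  refine ⟨fun t => (Φ t)⁻¹, h1.inv, ?_, ?_, ?_, rfl⟩
  · show (Φ 0)⁻¹ = 1
    rw [h2, inv_one]
  · intro t c hc
    show (Φ t).symm _ = _
    rw [Homeomorph.symm_apply_eq, h3 t c hc]
  · intro t
    show (Φ t).symm _ = _
    rw [Homeomorph.symm_apply_eq, h4]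

/-- extension of a homeomorphism of the plane to the sphere -/
noncomputable abbrev ext (f : (ℝ × ℝ) ≃ₜ (ℝ × ℝ)) : OnePoint (ℝ × ℝ) ≃ₜ OnePoint (ℝ × ℝ) :=
  f.onePointCongr

lemma ext_coe (f : (ℝ × ℝ) ≃ₜ (ℝ × ℝ)) (z : ℝ × ℝ) : ext f (z : S2) = ((f z : ℝ × ℝ) : S2) := rfl

lemma ext_infty (f : (ℝ × ℝ) ≃ₜ (ℝ × ℝ)) : ext f ∞ = ∞ := rfl

lemma ext_symm (f : (ℝ × ℝ) ≃ₜ (ℝ × ℝ)) : (ext f)⁻¹ = ext f.symm := rfl

lemma IsoId.conj {C : Set (ℝ × ℝ)} {g : S2 ≃ₜ S2} (hg : IsoId C g) (f : (ℝ × ℝ) ≃ₜ (ℝ × ℝ))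
    (hf : f '' C = C) : IsoId C (ext f * g * (ext f)⁻¹) := by
  obtain ⟨Φ, h1, h2, h3, h4, rfl⟩ := hg
  refine ⟨fun t => ext f * Φ t * (ext f)⁻¹,
    ((ContFam.const _).mul h1).mul (ContFam.const _), ?_, ?_, ?_, rfl⟩
  · show ext f * Φ 0 * (ext f)⁻¹ = 1
    rw [h2, mul_one, mul_inv_cancel]
  · intro t c hc
    show ext f (Φ t (ext f.symm _)) = _
    have h5 : f.symm c ∈ C := by
      rw [← hf] at hc
      obtain ⟨d, hd, rfl⟩ := hc
      rwa [Homeomorph.symm_apply_apply]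
    rw [ext_coe, h3 t _ h5, ext_coe, Homeomorph.apply_symm_apply]
  · intro t
    show ext f (Φ t (ext f.symm _)) = _
    rw [ext_infty, h4, ext_infty]

lemma isotopic_refl (C : Set (ℝ × ℝ)) (A : Set S2) : Isotopic C A A := by
  rw [isotopic_iff]
  refine ⟨1, IsoId.one C, ?_⟩
  show (fun x => x) '' A = A
  exact image_id' A

lemma isotopic_symm {C : Set (ℝ × ℝ)} {A B : Set S2} (h : Isotopic C A B) :
    Isotopic C B A := by
  rw [isotopic_iff] at h ⊢
  obtain ⟨g, hg, rfl⟩ := h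
  refine ⟨g⁻¹, hg.inv, ?_⟩
  rw [image_image]
  have : ∀ x, g⁻¹ (g x) = x := fun x => g.symm_apply_apply x
  simp only [this, image_id']

lemma isotopic_trans {C : Set (ℝ × ℝ)} {A B D : Set S2} (h : Isotopic C A B)
    (h' : Isotopic C B D) : Isotopic C A D := by
  rw [isotopic_iff] at h h' ⊢
  obtain ⟨g, hg, rfl⟩ := h
  obtain ⟨g', hg', rfl⟩ := h'
  refine ⟨g' * g, hg'.mul hg, ?_⟩
  rw [image_image]
  rfl

lemma isotopic_map {C : Set (ℝ × ℝ)} {A B : Set S2} (h : Isotopic C A B)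
    (f : (ℝ × ℝ) ≃ₜ (ℝ × ℝ)) (hf : f '' C = C) : Isotopic C (ext f '' A) (ext f '' B) := by
  rw [isotopic_iff] at h ⊢
  obtain ⟨g, hg, rfl⟩ := h
  refine ⟨_, hg.conj f hf, ?_⟩
  rw [image_image, image_image]
  congr 1
  funext x
  show ext f (g ((ext f).symm (ext f x))) = _
  rw [Homeomorph.symm_apply_apply]

/-- transport of isotopy by a homeomorphism of the plane -/
lemma isotopic_transport {C : Set (ℝ × ℝ)} {A B : Set S2} (h : Isotopic C A B)
    (f : (ℝ × ℝ) ≃ₜ (ℝ × ℝ)) : Isotopic (f '' C) (ext f '' A) (ext f '' B) := by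
  rw [isotopic_iff] at h ⊢
  obtain ⟨g, ⟨Φ, h1, h2, h3, h4, rfl⟩, rfl⟩ := h
  refine ⟨ext f * Φ 1 * (ext f)⁻¹, ⟨fun t => ext f * Φ t * (ext f)⁻¹,
    ((ContFam.const _).mul h1).mul (ContFam.const _), ?_, ?_, ?_, rfl⟩, ?_⟩
  · show ext f * Φ 0 * (ext f)⁻¹ = 1
    rw [h2, mul_one, mul_inv_cancel]
  · rintro t _ ⟨c, hc, rfl⟩
    show ext f (Φ t (ext f.symm _)) = _
    rw [ext_coe, Homeomorph.symm_apply_apply, h3 t _ hc, ext_coe]
  · intro t
    show ext f (Φ t (ext f.symm _)) = _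
    rw [ext_infty, h4, ext_infty]
  · rw [image_image, image_image]
    congr 1
    funext x
    show ext f (Φ 1 ((ext f).symm (ext f x))) = _
    rw [Homeomorph.symm_apply_apply]

lemma isotopic_equivalence (C : Set (ℝ × ℝ)) :
    Equivalence (fun α β : Ray C => Isotopic C α.image β.image) :=
  ⟨fun _ => isotopic_refl _ _, isotopic_symm, isotopic_trans⟩

/-- isotopy of rays, relative to `C ∪ {∞}` -/
def raySetoid (C : Set (ℝ × ℝ)) : Setoid (Ray C) :=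
  ⟨fun α β => Isotopic C α.image β.image, isotopic_equivalence C⟩

/-- vertices of the ray graph: isotopy classes of rays -/
def Vertex (C : Set (ℝ × ℝ)) : Type := Quotient (raySetoid C)

/-- the isotopy class of a ray -/
def Ray.cls {C : Set (ℝ × ℝ)} (α : Ray C) : Vertex C := Quotient.mk (raySetoid C) α

lemma cls_eq_iff {C : Set (ℝ × ℝ)} {α β : Ray C} :
    α.cls = β.cls ↔ Isotopic C α.image β.image := Quotient.eq (r := raySetoid C)

/-- The ray graph: two distinct classes are adjacent when they have representatives that meet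
only at `∞`. -/
def rayGraph (C : Set (ℝ × ℝ)) : SimpleGraph (Vertex C) where
  Adj u v := u ≠ v ∧ ∃ α β : Ray C, α.cls = u ∧ β.cls = v ∧ α.image ∩ β.image = {∞}
  symm := ⟨fun _ _ ⟨h, α, β, h1, h2, h3⟩ => ⟨h.symm, β, α, h2, h1, by rw [inter_comm, h3]⟩⟩
  loopless := ⟨fun _ h => h.1 rfl⟩

lemma map_finish {C : Set (ℝ × ℝ)} (f : (ℝ × ℝ) ≃ₜ (ℝ × ℝ)) (hf : f '' C = C) (α : Ray C) :
    ∃ c ∈ C, ext f (α.arc 1) = ((c : ℝ × ℝ) : OnePoint (ℝ × ℝ)) := by
  obtain ⟨c, hc, h⟩ := α.finish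
  refine ⟨f c, ?_, by rw [h]; rfl⟩
  rw [← hf]
  exact mem_image_of_mem f hc

lemma map_interior {C : Set (ℝ × ℝ)} (f : (ℝ × ℝ) ≃ₜ (ℝ × ℝ)) (hf : f '' C = C) (α : Ray C)
    (t : unitInterval) (h0 : t ≠ 0) (h1 : t ≠ 1) :
    ∃ z ∉ C, ext f (α.arc t) = ((z : ℝ × ℝ) : OnePoint (ℝ × ℝ)) := by
  obtain ⟨z, hz, h⟩ := α.interior t h0 h1
  refine ⟨f z, ?_, by rw [h]; rfl⟩
  intro hz'
  rw [← hf] at hz'
  obtain ⟨w, hw, hwz⟩ := hz'
  rw [← f.injective hwz] at hz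
  exact hz hw

lemma map_start {C : Set (ℝ × ℝ)} (f : (ℝ × ℝ) ≃ₜ (ℝ × ℝ)) (α : Ray C) :
    ext f (α.arc 0) = ∞ := by rw [α.start]; rfl

/-- the image of a ray under a homeomorphism of the plane preserving `C` -/
noncomputable def Ray.map {C : Set (ℝ × ℝ)} (f : (ℝ × ℝ) ≃ₜ (ℝ × ℝ)) (hf : f '' C = C)
    (α : Ray C) : Ray C where
  arc := fun t => f.onePointCongr (α.arc t)
  cont := f.onePointCongr.continuous.comp α.cont
  inj := f.onePointCongr.injective.comp α.inj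
  start := map_start f α
  finish := map_finish f hf α
  interior := map_interior f hf α

lemma map_image {C : Set (ℝ × ℝ)} (f : (ℝ × ℝ) ≃ₜ (ℝ × ℝ)) (hf : f '' C = C)
    (α : Ray C) : (α.map f hf).image = ext f '' α.image := by
  unfold Ray.image
  rw [← range_comp]
  rfl

lemma map_respects {C : Set (ℝ × ℝ)} (f : (ℝ × ℝ) ≃ₜ (ℝ × ℝ)) (hf : f '' C = C)
    (α β : Ray C) (h : Isotopic C α.image β.image) :
    (α.map f hf).cls = (β.map f hf).cls := by
  rw [cls_eq_iff, map_image, map_image]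
  exact isotopic_map h f hf

/-- the action on vertices -/
noncomputable def vmap {C : Set (ℝ × ℝ)} (f : (ℝ × ℝ) ≃ₜ (ℝ × ℝ)) (hf : f '' C = C) :
    Vertex C → Vertex C :=
  Quotient.lift (fun α : Ray C => (α.map f hf).cls) (map_respects f hf)

lemma vmap_cls {C : Set (ℝ × ℝ)} (f : (ℝ × ℝ) ≃ₜ (ℝ × ℝ)) (hf : f '' C = C) (α : Ray C) :
    vmap f hf α.cls = (α.map f hf).cls := rfl

lemma symm_image {C : Set (ℝ × ℝ)} {f : (ℝ × ℝ) ≃ₜ (ℝ × ℝ)} (hf : f '' C = C) :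
    f.symm '' C = C := by
  conv_lhs => rw [← hf]
  rw [image_image]
  simp

lemma vmap_symm_vmap {C : Set (ℝ × ℝ)} (f : (ℝ × ℝ) ≃ₜ (ℝ × ℝ)) (hf : f '' C = C)
    (v : Vertex C) : vmap f.symm (symm_image hf) (vmap f hf v) = v := by
  induction v using Quotient.inductionOn with
  | h α =>
    show ((α.map f hf).map f.symm (symm_image hf)).cls = α.cls
    rw [cls_eq_iff, map_image, map_image, image_image]
    have : ∀ x, ext f.symm (ext f x) = x := fun x => (ext f).symm_apply_apply x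
    simp only [this, image_id']
    exact isotopic_refl _ _

lemma vmap_vmap_symm {C : Set (ℝ × ℝ)} (f : (ℝ × ℝ) ≃ₜ (ℝ × ℝ)) (hf : f '' C = C)
    (v : Vertex C) : vmap f hf (vmap f.symm (symm_image hf) v) = v := by
  induction v using Quotient.inductionOn with
  | h α =>
    show ((α.map f.symm (symm_image hf)).map f hf).cls = α.cls
    rw [cls_eq_iff, map_image, map_image, image_image]
    have : ∀ x, ext f (ext f.symm x) = x := fun x => (ext f).apply_symm_apply x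
    simp only [this, image_id']
    exact isotopic_refl _ _

/-- the bijection of vertices -/
noncomputable def vequiv {C : Set (ℝ × ℝ)} (f : (ℝ × ℝ) ≃ₜ (ℝ × ℝ)) (hf : f '' C = C) :
    Vertex C ≃ Vertex C where
  toFun := vmap f hf
  invFun := vmap f.symm (symm_image hf)
  left_inv := vmap_symm_vmap f hf
  right_inv := vmap_vmap_symm f hf

lemma vmap_adj {C : Set (ℝ × ℝ)} (f : (ℝ × ℝ) ≃ₜ (ℝ × ℝ)) (hf : f '' C = C)
    {u v : Vertex C} (h : (rayGraph C).Adj u v) :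
    (rayGraph C).Adj (vmap f hf u) (vmap f hf v) := by
  obtain ⟨hne, α, β, rfl, rfl, h3⟩ := h
  refine ⟨fun h => hne ((vequiv f hf).injective h), α.map f hf, β.map f hf, rfl, rfl, ?_⟩
  rw [map_image, map_image, ← image_inter (ext f).injective, h3, image_singleton]
  rfl

lemma vequiv_adj {C : Set (ℝ × ℝ)} (f : (ℝ × ℝ) ≃ₜ (ℝ × ℝ)) (hf : f '' C = C)
    {u v : Vertex C} : (rayGraph C).Adj (vequiv f hf u) (vequiv f hf v) ↔ (rayGraph C).Adj u v := by
  constructor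
  · intro h
    have := vmap_adj f.symm (symm_image hf) h
    have h1 : ∀ w, vmap f.symm (symm_image hf) (vequiv f hf w) = w := vmap_symm_vmap f hf
    rwa [h1, h1] at this
  · exact vmap_adj f hf

/-- The action of a homeomorphism of the plane preserving `C` on the ray graph of `C`, a graph
automorphism. -/
noncomputable def act {C : Set (ℝ × ℝ)} (f : (ℝ × ℝ) ≃ₜ (ℝ × ℝ)) (hf : f '' C = C) :
    rayGraph C ≃g rayGraph C where
  toEquiv := vequiv f hf
  map_rel_iff' := vequiv_adj f hf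

lemma act_cls {C : Set (ℝ × ℝ)} (f : (ℝ × ℝ) ≃ₜ (ℝ × ℝ)) (hf : f '' C = C) (α : Ray C) :
    act f hf α.cls = (α.map f hf).cls := rfl

/-- transport of a ray by a homeomorphism of the plane -/
noncomputable def Ray.transport {C : Set (ℝ × ℝ)} (f : (ℝ × ℝ) ≃ₜ (ℝ × ℝ)) (α : Ray C) :
    Ray (f '' C) where
  arc := fun t => f.onePointCongr (α.arc t)
  cont := f.onePointCongr.continuous.comp α.cont
  inj := f.onePointCongr.injective.comp α.inj
  start := map_start f α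
  finish := by
    obtain ⟨c, hc, h⟩ := α.finish
    exact ⟨f c, mem_image_of_mem f hc, by rw [h]; rfl⟩
  interior := by
    intro t h0 h1
    obtain ⟨z, hz, h⟩ := α.interior t h0 h1
    refine ⟨f z, ?_, by rw [h]; rfl⟩
    rintro ⟨w, hw, hwz⟩
    rw [f.injective hwz] at hw
    exact hz hw

lemma transport_image {C : Set (ℝ × ℝ)} (f : (ℝ × ℝ) ≃ₜ (ℝ × ℝ)) (α : Ray C) :
    (α.transport f).image = ext f '' α.image := by
  unfold Ray.image
  rw [← range_comp]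
  rfl

/-- change of the closed set along an equality -/
def Ray.cast {C D : Set (ℝ × ℝ)} (h : C = D) (α : Ray C) : Ray D where
  arc := α.arc
  cont := α.cont
  inj := α.inj
  start := α.start
  finish := by subst h; exact α.finish
  interior := by subst h; exact α.interior

lemma cast_image {C D : Set (ℝ × ℝ)} (h : C = D) (α : Ray C) : (α.cast h).image = α.image := rfl

end Pool.Agent.W5h69.RG
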