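import Mathlib
import Pool.Agent.W5h69.RayGraph

/-!
# Smale horseshoe maps fix the isotopy class of a ray
-/

open Set Filter Topology OnePoint

namespace Pool.Agent.W5h69.HS

open Pool.Agent.W5h69.Sph Pool.Agent.W5h69.RG

/-- Parameters of a horseshoe: the horizontal strips are `[0,1] × [a₀,b₀]` and
`[0,1] × [a₁,b₁]`, the vertical strips are `[u₀,v₀] × [0,1]` and `[u₁,v₁] × [0,1]`. -/
structure Strips where
  (a₀ b₀ a₁ b₁ u₀ v₀ u₁ v₁ : ℝ)
  horiz : 0 < a₀ ∧ a₀ < b₀ ∧ b₀ < a₁ ∧ a₁ < b₁ ∧ b₁ < 1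
  vert : 0 < u₀ ∧ u₀ < v₀ ∧ v₀ < u₁ ∧ u₁ < v₁ ∧ v₁ < 1

/-- the unit square -/
def Q : Set (ℝ × ℝ) := Icc 0 1 ×ˢ Icc 0 1

/-- `f` is a Smale horseshoe map with the given strips: the two horizontal strips are mapped
affinely onto the two vertical strips (the second one rotated by a half turn), the part of the
square between the two horizontal strips is mapped above the square, the two remaining parts of
the square are mapped below it. -/
structure IsHorseshoe (S : Strips) (f : (ℝ × ℝ) ≃ₜ (ℝ × ℝ)) : Prop where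
  strip0 : ∀ x ∈ Icc (0 : ℝ) 1, ∀ y ∈ Icc S.a₀ S.b₀,
    f (x, y) = (S.u₀ + (S.v₀ - S.u₀) * x, (y - S.a₀) / (S.b₀ - S.a₀))
  strip1 : ∀ x ∈ Icc (0 : ℝ) 1, ∀ y ∈ Icc S.a₁ S.b₁,
    f (x, y) = (S.v₁ - (S.v₁ - S.u₁) * x, (S.b₁ - y) / (S.b₁ - S.a₁))
  arch : ∀ x ∈ Icc (0 : ℝ) 1, ∀ y ∈ Ioo S.b₀ S.a₁, 1 < (f (x, y)).2
  bottom : ∀ x ∈ Icc (0 : ℝ) 1, ∀ y ∈ Ico 0 S.a₀, (f (x, y)).2 < 0
  top : ∀ x ∈ Icc (0 : ℝ) 1, ∀ y ∈ Ioc S.b₁ 1, (f (x, y)).2 < 0

/-- the invariant set `Λ = ⋂ₙ fⁿ(Q)` -/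
def Lam (f : (ℝ × ℝ) ≃ₜ (ℝ × ℝ)) : Set (ℝ × ℝ) := ⋂ n : ℤ, ⇑(f ^ n) '' Q

lemma mem_Lam {f : (ℝ × ℝ) ≃ₜ (ℝ × ℝ)} {q : ℝ × ℝ} : q ∈ Lam f ↔ ∀ n : ℤ, (f ^ n) q ∈ Q := by
  unfold Lam
  rw [mem_iInter]
  constructor
  · intro h n
    obtain ⟨p, hp, hpq⟩ := h (-n)
    have : (f ^ n) q = p := by
      rw [← hpq]
      show (f ^ n * f ^ (-n)) p = p
      rw [← zpow_add, add_neg_cancel, zpow_zero]; rfl
    rwa [this]
  · intro h n
    refine ⟨_, h (-n), ?_⟩
    show (f ^ n * f ^ (-n)) q = q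
    rw [← zpow_add, add_neg_cancel, zpow_zero]; rfl

lemma apply_mem_Lam {f : (ℝ × ℝ) ≃ₜ (ℝ × ℝ)} {q : ℝ × ℝ} (h : q ∈ Lam f) : f q ∈ Lam f := by
  rw [mem_Lam] at h ⊢
  intro n
  have := h (n + 1)
  rwa [zpow_add_one] at this

lemma symm_mem_Lam {f : (ℝ × ℝ) ≃ₜ (ℝ × ℝ)} {q : ℝ × ℝ} (h : q ∈ Lam f) :
    f.symm q ∈ Lam f := by
  rw [mem_Lam] at h ⊢
  intro n
  have := h (n - 1)
  rwa [zpow_sub_one] at this

lemma image_Lam (f : (ℝ × ℝ) ≃ₜ (ℝ × ℝ)) : f '' Lam f = Lam f := by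
  ext q
  constructor
  · rintro ⟨p, hp, rfl⟩
    exact apply_mem_Lam hp
  · intro h
    exact ⟨f.symm q, symm_mem_Lam h, f.apply_symm_apply q⟩

lemma Lam_subset_Q {f : (ℝ × ℝ) ≃ₜ (ℝ × ℝ)} {q : ℝ × ℝ} (h : q ∈ Lam f) : q ∈ Q := by
  have := mem_Lam.1 h 0
  simpa using this

variable {S : Strips} {f : (ℝ × ℝ) ≃ₜ (ℝ × ℝ)}

lemma strip_of_mem (h : IsHorseshoe S f) {q : ℝ × ℝ} (hq : q ∈ Q)
    (h0 : 0 ≤ (f q).2) (h1 : (f q).2 ≤ 1) : q.2 ∈ Icc S.a₀ S.b₀ ∨ q.2 ∈ Icc S.a₁ S.b₁ := by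
  obtain ⟨x, y⟩ := q
  have hx : x ∈ Icc (0 : ℝ) 1 := hq.1
  have hy : y ∈ Icc (0 : ℝ) 1 := hq.2
  show y ∈ Icc S.a₀ S.b₀ ∨ y ∈ Icc S.a₁ S.b₁
  by_contra hcon
  rw [not_or] at hcon
  obtain ⟨c1, c2⟩ := hcon
  rcases lt_or_ge y S.a₀ with hya | hya
  · have := h.bottom x hx y ⟨hy.1, hya⟩
    linarith
  · have hb : S.b₀ < y := by
      by_contra hle
      exact c1 ⟨hya, not_lt.1 hle⟩
    rcases lt_or_ge y S.a₁ with hya1 | hya1
    · have := h.arch x hx y ⟨hb, hya1⟩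
      linarith
    · have hb1 : S.b₁ < y := by
        by_contra hle
        exact c2 ⟨hya1, not_lt.1 hle⟩
      have := h.top x hx y ⟨hb1, hy.2⟩
      linarith

lemma Lam_strip (h : IsHorseshoe S f) {q : ℝ × ℝ} (hq : q ∈ Lam f) :
    q.2 ∈ Icc S.a₀ S.b₀ ∨ q.2 ∈ Icc S.a₁ S.b₁ := by
  have h1 := Lam_subset_Q (apply_mem_Lam hq)
  exact strip_of_mem h (Lam_subset_Q hq) h1.2.1 h1.2.2

/-- points of `Λ` as images -/
lemma Lam_fst (h : IsHorseshoe S f) {q : ℝ × ℝ} (hq : q ∈ Lam f) :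
    ∃ p ∈ Lam f, (q.1 = S.u₀ + (S.v₀ - S.u₀) * p.1) ∨ (q.1 = S.v₁ - (S.v₁ - S.u₁) * p.1) := by
  have hp := symm_mem_Lam hq
  refine ⟨f.symm q, hp, ?_⟩
  have hpQ := Lam_subset_Q hp
  have hfp : f (f.symm q) = q := f.apply_symm_apply q
  rcases Lam_strip h hp with h1 | h1
  · left
    have := h.strip0 _ hpQ.1 _ h1
    rw [show ((f.symm q).1, (f.symm q).2) = f.symm q from rfl, hfp] at this
    exact congrArg Prod.fst this
  · right
    have := h.strip1 _ hpQ.1 _ h1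
    rw [show ((f.symm q).1, (f.symm q).2) = f.symm q from rfl, hfp] at this
    exact congrArg Prod.fst this

/-- first coordinate of the fixed point -/
noncomputable def xs (S : Strips) : ℝ := S.u₀ / (1 - (S.v₀ - S.u₀))

/-- second coordinate of the fixed point -/
noncomputable def ys (S : Strips) : ℝ := S.a₀ / (1 - (S.b₀ - S.a₀))

lemma xs_den (S : Strips) : 0 < 1 - (S.v₀ - S.u₀) := by
  obtain ⟨h1, h2, h3, h4, h5⟩ := S.vert
  linarith

lemma ys_den (S : Strips) : 0 < 1 - (S.b₀ - S.a₀) := by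
  obtain ⟨h1, h2, h3, h4, h5⟩ := S.horiz
  linarith

lemma xs_eq (S : Strips) : S.u₀ + (S.v₀ - S.u₀) * xs S = xs S := by
  have := xs_den S
  unfold xs
  field_simp
  ring

lemma ys_eq (S : Strips) : ys S - S.a₀ = (S.b₀ - S.a₀) * ys S := by
  have := ys_den S
  unfold ys
  field_simp
  ring

lemma xs_pos (S : Strips) : 0 < xs S := div_pos S.vert.1 (xs_den S)
lemma ys_pos (S : Strips) : 0 < ys S := div_pos S.horiz.1 (ys_den S)

lemma xs_lt_one (S : Strips) : xs S < 1 := by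
  unfold xs
  rw [div_lt_one (xs_den S)]
  obtain ⟨h1, h2, h3, h4, h5⟩ := S.vert
  linarith

lemma ys_lt_one (S : Strips) : ys S < 1 := by
  unfold ys
  rw [div_lt_one (ys_den S)]
  obtain ⟨h1, h2, h3, h4, h5⟩ := S.horiz
  linarith

lemma u0_lt_xs (S : Strips) : S.u₀ < xs S := by
  have h1 := xs_eq S
  have h2 := xs_pos S
  have h3 := S.vert.2.1
  nlinarith

lemma ys_mem (S : Strips) : ys S ∈ Icc S.a₀ S.b₀ := by
  have h1 := ys_eq S
  have h2 := ys_pos S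
  have h3 := ys_lt_one S
  have h4 := S.horiz.2.1
  constructor <;> nlinarith

/-- on the horizontal line through the fixed point -/
lemma f_line (h : IsHorseshoe S f) {x : ℝ} (hx : x ∈ Icc (0 : ℝ) 1) :
    f (x, ys S) = (S.u₀ + (S.v₀ - S.u₀) * x, ys S) := by
  rw [h.strip0 x hx _ (ys_mem S)]
  congr 1
  rw [ys_eq]
  have := S.horiz.2.1
  have h2 : S.b₀ - S.a₀ ≠ 0 := by linarith
  field_simp

lemma fixed_point (h : IsHorseshoe S f) : f (xs S, ys S) = (xs S, ys S) := by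
  rw [f_line h ⟨(xs_pos S).le, (xs_lt_one S).le⟩, xs_eq]

lemma fixed_mem_Lam (h : IsHorseshoe S f) : (xs S, ys S) ∈ Lam f := by
  rw [mem_Lam]
  intro n
  have h1 : (f ^ n) (xs S, ys S) = (xs S, ys S) := by
    have h2 : Function.IsFixedPt f (xs S, ys S) := fixed_point h
    induction n using Int.induction_on with
    | zero => rfl
    | succ n ih =>
      rw [zpow_add_one]
      show (f ^ (n : ℤ)) (f (xs S, ys S)) = _
      rw [fixed_point h, ih]
    | pred n ih =>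
      rw [zpow_sub_one]
      show (f ^ (-(n : ℤ))) (f.symm (xs S, ys S)) = _
      have : f.symm (xs S, ys S) = (xs S, ys S) := by
        rw [Homeomorph.symm_apply_eq, fixed_point h]
      rw [this, ih]
  rw [h1]
  exact ⟨⟨(xs_pos S).le, (xs_lt_one S).le⟩, ⟨(ys_pos S).le, (ys_lt_one S).le⟩⟩

/-- the fixed point is the leftmost point of `Λ` -/
lemma xs_le (h : IsHorseshoe S f) {q : ℝ × ℝ} (hq : q ∈ Lam f) : xs S ≤ q.1 := by
  set A : Set ℝ := Prod.fst '' Lam f with hA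
  have hbdd : BddBelow A := by
    refine ⟨0, ?_⟩
    rintro _ ⟨p, hp, rfl⟩
    exact (Lam_subset_Q hp).1.1
  have hne : A.Nonempty := ⟨_, _, hq, rfl⟩
  set l := sInf A with hl
  have hlow : ∀ p ∈ Lam f, l ≤ p.1 := fun p hp => csInf_le hbdd ⟨p, hp, rfl⟩
  obtain ⟨g1, g2, g3, g4, g5⟩ := S.vert
  have hl1 : l ≤ 1 := (hlow q hq).trans (Lam_subset_Q hq).1.2
  have hstep : S.u₀ + (S.v₀ - S.u₀) * l ≤ l := by
    apply le_csInf hne
    rintro _ ⟨r, hr, rfl⟩
    obtain ⟨p, hp, hpr | hpr⟩ := Lam_fst h hr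
    · rw [hpr]
      have := hlow p hp
      nlinarith
    · rw [hpr]
      have := (Lam_subset_Q hp).1.2
      nlinarith
  have hxl : xs S ≤ l := by
    unfold xs
    rw [div_le_iff₀ (xs_den S)]
    linarith
  exact hxl.trans (hlow q hq)

lemma Lam_fst_mem (h : IsHorseshoe S f) {q : ℝ × ℝ} (hq : q ∈ Lam f) :
    S.u₀ ≤ q.1 ∧ q.1 ≤ S.v₁ := by
  obtain ⟨g1, g2, g3, g4, g5⟩ := S.vert
  refine ⟨(u0_lt_xs S).le.trans (xs_le h hq), ?_⟩
  obtain ⟨p, hp, hpr | hpr⟩ := Lam_fst h hq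
  · rw [hpr]
    have h1 := (Lam_subset_Q hp).1.2
    nlinarith
  · rw [hpr]
    have h1 := (Lam_subset_Q hp).1.1
    nlinarith

lemma Lam_snd_mem (h : IsHorseshoe S f) {q : ℝ × ℝ} (hq : q ∈ Lam f) :
    S.a₀ ≤ q.2 ∧ q.2 ≤ S.b₁ := by
  obtain ⟨g1, g2, g3, g4, g5⟩ := S.horiz
  rcases Lam_strip h hq with h1 | h1
  · exact ⟨h1.1, by linarith [h1.2]⟩
  · exact ⟨by linarith [h1.1], h1.2⟩

/-- margin -/
noncomputable def mg (S : Strips) : ℝ := min (min S.u₀ (1 - S.v₁)) (min S.a₀ (1 - S.b₁))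

lemma mg_pos (S : Strips) : 0 < mg S := by
  obtain ⟨g1, g2, g3, g4, g5⟩ := S.vert
  obtain ⟨k1, k2, k3, k4, k5⟩ := S.horiz
  exact lt_min (lt_min g1 (by linarith)) (lt_min k1 (by linarith))

lemma mg_le_u (S : Strips) : mg S ≤ S.u₀ := (min_le_left _ _).trans (min_le_left _ _)
lemma mg_le_v (S : Strips) : mg S ≤ 1 - S.v₁ := (min_le_left _ _).trans (min_le_right _ _)
lemma mg_le_a (S : Strips) : mg S ≤ S.a₀ := (min_le_right _ _).trans (min_le_left _ _)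
lemma mg_le_b (S : Strips) : mg S ≤ 1 - S.b₁ := (min_le_right _ _).trans (min_le_right _ _)

lemma mg_lt (S : Strips) : mg S < 1 / 2 := by
  have h1 := mg_le_u S
  have h2 := mg_le_v S
  obtain ⟨g1, g2, g3, g4, g5⟩ := S.vert
  linarith

lemma norm_sub_half_le {q : ℝ × ℝ} {r : ℝ} :
    ‖q - ((1 / 2 : ℝ), (1 / 2 : ℝ))‖ ≤ r ↔ |q.1 - 1 / 2| ≤ r ∧ |q.2 - 1 / 2| ≤ r := by
  rw [Prod.norm_def, max_le_iff]
  rfl

lemma conj_image (R P F : S2 ≃ₜ S2) (A : Set S2) :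
    (R⁻¹ * (F⁻¹ * P * F) : S2 ≃ₜ S2) '' (F.symm '' A) = R.symm '' (F.symm '' (P '' A)) := by
  rw [image_image, image_image, image_image]
  have : ∀ x, (R⁻¹ * (F⁻¹ * P * F) : S2 ≃ₜ S2) (F.symm x) = R.symm (F.symm (P x)) := by
    intro x
    show R.symm (F.symm (P (F (F.symm x)))) = _
    rw [Homeomorph.apply_symm_apply]
  simp only [this]

lemma symm_image_image (F : S2 ≃ₜ S2) (A : Set S2) : F.symm '' (F '' A) = A := by
  rw [image_image]
  have : ∀ x, F.symm (F x) = x := fun x => F.symm_apply_apply x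
  simp only [this, image_id']

lemma ext_image_symm_image (f : (ℝ × ℝ) ≃ₜ (ℝ × ℝ)) (A : Set S2) :
    ext f '' (ext f.symm '' A) = A := by
  rw [image_image]
  have : ∀ x, ext f (ext f.symm x) = x := fun x => (ext f).apply_symm_apply x
  simp only [this, image_id']

lemma seg_image' (h : IsHorseshoe S f) {x2 : ℝ} (hx2 : 0 ≤ x2) :
    ext f '' hseg x2 (xs S) (ys S) = hseg (S.u₀ + (S.v₀ - S.u₀) * x2) (xs S) (ys S) := by
  obtain ⟨g1, g2, g3, g4, g5⟩ := S.vert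
  have hx1 := xs_lt_one S
  have hxe := xs_eq S
  ext p
  constructor
  · rintro ⟨_, ⟨x, ⟨hx1', hx2'⟩, rfl⟩, rfl⟩
    refine ⟨S.u₀ + (S.v₀ - S.u₀) * x, ⟨?_, ?_⟩, ?_⟩
    · nlinarith
    · rw [← hxe]; nlinarith
    · simp only
      rw [ext_coe, f_line h ⟨by linarith, by linarith⟩]
  · rintro ⟨x, ⟨hx1', hx2'⟩, rfl⟩
    have hd : 0 < S.v₀ - S.u₀ := by linarith
    have h12 : x2 ≤ (x - S.u₀) / (S.v₀ - S.u₀) := by
      rw [le_div_iff₀ hd]; linarith
    have h13 : (x - S.u₀) / (S.v₀ - S.u₀) ≤ xs S := by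
      rw [div_le_iff₀ hd]
      linarith
    refine ⟨((((x - S.u₀) / (S.v₀ - S.u₀), ys S) : E2) : S2), ⟨_, ⟨h12, h13⟩, rfl⟩, ?_⟩
    rw [ext_coe, f_line h ⟨by linarith, by linarith⟩]
    have : S.u₀ + (S.v₀ - S.u₀) * ((x - S.u₀) / (S.v₀ - S.u₀)) = x := by
      field_simp
      ring
    rw [this]

lemma seg_image (h : IsHorseshoe S f) {x2 : ℝ} (hx2 : 0 ≤ x2) :
    ext f.symm '' hseg (S.u₀ + (S.v₀ - S.u₀) * x2) (xs S) (ys S) = hseg x2 (xs S) (ys S) := by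
  rw [← seg_image' h hx2]
  exact symm_image_image (ext f) _

/-- **Main lemma**: the class of the horizontal ray is invariant. -/
lemma main_isotopic (h : IsHorseshoe S f) :
    Isotopic (Lam f) (hray (xs S) (ys S)) (ext f '' hray (xs S) (ys S)) := by
  obtain ⟨g1, g2, g3, g4, g5⟩ := S.vert
  obtain ⟨k1, k2, k3, k4, k5⟩ := S.horiz
  have hm0 := mg_pos S
  have hm1 := mg_lt S
  have hmu := mg_le_u S
  have hmv := mg_le_v S
  have hma := mg_le_a S
  have hmb := mg_le_b S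
  have hux := u0_lt_xs S
  have hx0 := xs_pos S
  have hx1 := xs_lt_one S
  have hy0 := ys_pos S
  have hy1 := ys_lt_one S
  set m := mg S with hm
  set X := xs S with hX
  set Y := ys S with hY
  -- endpoints
  set x2 : ℝ := m / 2 with hx2
  set w1 : ℝ := S.u₀ + (S.v₀ - S.u₀) * x2 with hw1
  have hx2X : x2 < X := by rw [hx2]; linarith
  have hw1X : w1 < X := by
    have := xs_eq S
    rw [← hX] at this
    rw [← this, hw1]
    nlinarith
  have hfx2 : f (x2, Y) = (w1, Y) := f_line h ⟨by rw [hx2]; linarith, by rw [hx2]; linarith⟩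
  obtain ⟨P, P1, P2, P3, P4, P5, P6⟩ := pull X Y w1 hw1X
  obtain ⟨R, R1, R2, R3, R4, R5, R6⟩ := pull X Y x2 hx2X
  set ρ : ℝ := 1 / 2 - m with hρ
  have hρ0 : 0 < ρ := by rw [hρ]; linarith
  have hK : ∀ q ∈ Lam f, ‖q - ((1 / 2 : ℝ), (1 / 2 : ℝ))‖ ≤ ρ := by
    intro q hq
    rw [norm_sub_half_le, abs_le, abs_le]
    obtain ⟨c1, c2⟩ := Lam_fst_mem h hq
    obtain ⟨c3, c4⟩ := Lam_snd_mem h hq
    refine ⟨⟨?_, ?_⟩, ⟨?_, ?_⟩⟩ <;> rw [hρ] <;> linarith
  have hfixP : ∀ (P' : unitInterval → (S2 ≃ₜ S2)),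
      (∀ t, ∀ q : E2, X ≤ q.1 → q.1 ≤ X + 2 → |q.2 - Y| ≤ 1 → P' t (q : S2) = q) →
      ∀ t, ∀ q ∈ Lam f, P' t ((q : E2) : S2) = q := by
    intro P' hP' t q hq
    apply hP' t q (xs_le h hq)
    · have := (Lam_subset_Q hq).1.2
      linarith
    · have := (Lam_subset_Q hq).2
      rw [abs_le]
      constructor <;> linarith [this.1, this.2]
  have hout : ∀ x : ℝ, x ≤ x2 → ρ < ‖((x, Y) : ℝ × ℝ) - ((1 / 2 : ℝ), (1 / 2 : ℝ))‖ := by
    intro x hx
    by_contra hcon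
    rw [not_lt, norm_sub_half_le, abs_le] at hcon
    have := hcon.1.1
    simp only at this
    linarith
  obtain ⟨a₁, ha₁⟩ := exists_Ee ((1 / 2 : ℝ), (1 / 2 : ℝ)) ρ hρ0 (((x2, Y) : E2) : S2) (by
    intro q hq
    rw [← OnePoint.coe_injective hq]
    exact hout x2 le_rfl)
  have hEa : Ee ((1 / 2 : ℝ), (1 / 2 : ℝ)) ρ hρ0.ne' a₁ ∞ = (((x2, Y) : E2) : S2) := by
    rw [Ee_infty, ← ha₁, Inv_Inv, Homeomorph.symm_apply_apply]
  -- first isotopy
  have hA : IsoId (Lam f) ((Ee ((1 / 2 : ℝ), (1 / 2 : ℝ)) ρ hρ0.ne' a₁)⁻¹ *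
      ((ext f)⁻¹ * P 1 * ext f)) := by
    refine correct ((1 / 2 : ℝ), (1 / 2 : ℝ)) ρ hρ0 (Lam f) hK
      (fun t => (ext f)⁻¹ * P t * ext f) (((ContFam.const _).mul P1).mul (ContFam.const _))
      ?_ ?_ ?_ a₁ ?_
    · show (ext f)⁻¹ * P 0 * ext f = 1
      rw [P2, mul_one, inv_mul_cancel]
    · intro t q hq
      show (ext f).symm (P t (ext f _)) = _
      rw [ext_coe, hfixP P P3 t _ (apply_mem_Lam hq), Homeomorph.symm_apply_eq, ext_coe]
    · intro t q hq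
      have hq' : (ext f).symm (P t ∞) = (q : S2) := hq
      rw [Homeomorph.symm_apply_eq, ext_coe] at hq'
      rcases P4 t with h4 | ⟨x, hx, h4⟩
      · rw [h4] at hq'
        exact absurd hq' (OnePoint.infty_ne_coe _)
      · rw [h4] at hq'
        have hfq : f q = (x, Y) := (OnePoint.coe_injective hq').symm
        by_contra hcon
        rw [not_lt, norm_sub_half_le, abs_le, abs_le] at hcon
        obtain ⟨⟨d1, d2⟩, ⟨d3, d4⟩⟩ := hcon
        rw [hρ] at d1 d2 d3 d4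
        have hqQ : q ∈ Q := ⟨⟨by linarith, by linarith⟩, ⟨by linarith, by linarith⟩⟩
        have hst := strip_of_mem h hqQ (by rw [hfq]; exact hy0.le) (by rw [hfq]; exact hy1.le)
        rcases hst with h5 | h5
        · have h6 := h.strip0 _ hqQ.1 _ h5
          rw [show (q.1, q.2) = q from rfl, hfq] at h6
          have h7 : x = S.u₀ + (S.v₀ - S.u₀) * q.1 := congrArg Prod.fst h6
          have h8 : x2 < q.1 := by linarith
          nlinarith
        · have h6 := h.strip1 _ hqQ.1 _ h5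
          rw [show (q.1, q.2) = q from rfl, hfq] at h6
          have h7 : x = S.v₁ - (S.v₁ - S.u₁) * q.1 := congrArg Prod.fst h6
          have h8 : q.1 ≤ 1 := hqQ.1.2
          have h9 : x2 < 1 := by linarith
          nlinarith
    · rw [hEa]
      show _ = (ext f).symm (P 1 ∞)
      rw [P5, eq_comm, Homeomorph.symm_apply_eq, ext_coe, hfx2]
  -- second isotopy
  have hB : IsoId (Lam f) ((Ee ((1 / 2 : ℝ), (1 / 2 : ℝ)) ρ hρ0.ne' a₁)⁻¹ * R 1) := by
    refine correct ((1 / 2 : ℝ), (1 / 2 : ℝ)) ρ hρ0 (Lam f) hK R R1 R2 (hfixP R R3) ?_ a₁ ?_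
    · intro t q hq
      rcases R4 t with h4 | ⟨x, hx, h4⟩
      · rw [h4] at hq
        exact absurd hq (OnePoint.infty_ne_coe _)
      · rw [h4] at hq
        rw [← OnePoint.coe_injective hq]
        exact hout x hx
    · rw [hEa, R5]
  have hG := hB.inv.mul hA
  have hG' : IsoId (Lam f) ((R 1)⁻¹ * ((ext f)⁻¹ * P 1 * ext f)) := by
    convert hG using 1
    group
  -- image of the ray
  have himg : ((R 1)⁻¹ * ((ext f)⁻¹ * P 1 * ext f) : S2 ≃ₜ S2) '' (ext f.symm '' hray X Y)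
      = hray X Y := by
    refine (conj_image (R 1) (P 1) (ext f) (hray X Y)).trans ?_
    rw [P6]
    show (R 1).symm '' (ext f.symm '' hseg w1 X Y) = _
    have e2 : ext f.symm '' hseg w1 X Y = hseg x2 X Y :=
      seg_image h (by rw [hx2]; linarith)
    rw [e2, ← R6]
    exact symm_image_image _ _
  have hI : Isotopic (Lam f) (ext f.symm '' hray X Y) (hray X Y) := by
    rw [isotopic_iff]
    exact ⟨_, hG', himg⟩
  have hfin := isotopic_map hI f (image_Lam f)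
  rw [ext_image_symm_image] at hfin
  exact hfin

/-- path along the horizontal ray -/
noncomputable def hpath (X Y : ℝ) (t : unitInterval) : S2 :=
  (Tr (X + 1, Y) 1 one_ne_zero).symm (Inv ((ax (t : ℝ) : E2) : S2))

lemma hpath_zero (X Y : ℝ) : hpath X Y 0 = ∞ := by
  unfold hpath
  have : ax ((0 : unitInterval) : ℝ) = 0 := by simp [ax]
  rw [this, Inv_zero]
  rfl

lemma hpath_pos (X Y : ℝ) {t : unitInterval} (ht : 0 < (t : ℝ)) :
    hpath X Y t = (((X + 1 - (t : ℝ)⁻¹, Y) : E2) : S2) := by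
  unfold hpath
  rw [Inv_ax ht, Homeomorph.symm_apply_eq, Tr_coe]
  simp [ax]

lemma continuous_hpath (X Y : ℝ) : Continuous (hpath X Y) := by
  unfold hpath
  apply (Homeomorph.continuous _).comp
  apply (Homeomorph.continuous _).comp
  apply OnePoint.continuous_coe.comp
  unfold ax
  fun_prop

lemma injective_hpath (X Y : ℝ) : Function.Injective (hpath X Y) := by
  intro s t hst
  unfold hpath at hst
  have h1 := OnePoint.coe_injective (Inv.injective ((Homeomorph.injective _) hst))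
  have h2 := congrArg Prod.fst h1
  simp only [ax, neg_inj] at h2
  exact Subtype.ext h2

lemma range_hpath (X Y : ℝ) : range (hpath X Y) = hray X Y := by
  ext p
  constructor
  · rintro ⟨t, rfl⟩
    rcases eq_or_lt_of_le t.2.1 with h0 | h0
    · have : t = 0 := Subtype.ext h0.symm
      subst this
      left
      exact hpath_zero X Y
    · right
      refine ⟨_, ?_, (hpath_pos X Y h0).symm⟩
      have h1 : 1 ≤ (t : ℝ)⁻¹ := (one_le_inv₀ h0).2 t.2.2
      show X + 1 - (t : ℝ)⁻¹ ≤ X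
      linarith
  · rintro (rfl | ⟨x, hx, rfl⟩)
    · exact ⟨0, hpath_zero X Y⟩
    · have hx' : x ≤ X := hx
      have hd : 1 ≤ X + 1 - x := by linarith
      have hd0 : 0 < X + 1 - x := by linarith
      refine ⟨⟨(X + 1 - x)⁻¹, inv_nonneg.2 hd0.le, inv_le_one_of_one_le₀ hd⟩, ?_⟩
      rw [hpath_pos X Y (inv_pos.2 hd0)]
      simp

/-- the horizontal ray -/
noncomputable def theRay (h : IsHorseshoe S f) : Ray (Lam f) where
  arc := hpath (xs S) (ys S)
  cont := continuous_hpath _ _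
  inj := injective_hpath _ _
  start := hpath_zero _ _
  finish := by
    refine ⟨_, fixed_mem_Lam h, ?_⟩
    rw [hpath_pos _ _ (by simp)]
    simp
  interior := by
    intro t h0 h1
    have ht0 : 0 < (t : ℝ) := unitInterval.pos_iff_ne_zero.2 h0
    refine ⟨_, ?_, hpath_pos _ _ ht0⟩
    intro hmem
    have h2 := xs_le h hmem
    simp only at h2
    have h3 : (t : ℝ) < 1 := unitInterval.lt_one_iff_ne_one.2 h1
    have h4 : 1 < (t : ℝ)⁻¹ := (one_lt_inv₀ ht0).2 h3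
    linarith

lemma theRay_image (h : IsHorseshoe S f) : (theRay h).image = hray (xs S) (ys S) :=
  range_hpath _ _

lemma act_theRay (h : IsHorseshoe S f) :
    act f (image_Lam f) (theRay h).cls = (theRay h).cls := by
  rw [act_cls, cls_eq_iff, map_image, theRay_image]
  exact isotopic_symm (main_isotopic h)

/-- the invariant set of a conjugate -/
lemma Lam_conj (f θ : (ℝ × ℝ) ≃ₜ (ℝ × ℝ)) (hθ : θ '' Q = Q) :
    θ '' Lam f = Lam (θ * f * θ⁻¹) := by
  have key : ∀ (n : ℤ) (q : ℝ × ℝ), ((θ * f * θ⁻¹) ^ n) (θ q) = θ ((f ^ n) q) := by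
    intro n q
    rw [conj_zpow]
    show θ ((f ^ n) (θ.symm (θ q))) = _
    rw [Homeomorph.symm_apply_apply]
  have hQ : ∀ q, θ q ∈ Q ↔ q ∈ Q := by
    intro q
    constructor
    · intro h
      rw [← hθ] at h
      obtain ⟨p, hp, hpq⟩ := h
      rwa [← θ.injective hpq]
    · intro h
      rw [← hθ]
      exact mem_image_of_mem θ h
  ext q
  constructor
  · rintro ⟨p, hp, rfl⟩
    rw [mem_Lam] at hp ⊢
    intro n
    rw [key, hQ]
    exact hp n
  · intro hq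
    refine ⟨θ.symm q, ?_, θ.apply_symm_apply q⟩
    rw [mem_Lam] at hq ⊢
    intro n
    rw [← hQ, ← key, θ.apply_symm_apply]
    exact hq n

/-- the transported horizontal ray -/
noncomputable def theRay' (h : IsHorseshoe S f) (θ : (ℝ × ℝ) ≃ₜ (ℝ × ℝ)) (hθ : θ '' Q = Q) :
    Ray (Lam (θ * f * θ⁻¹)) := ((theRay h).transport θ).cast (Lam_conj f θ hθ)

lemma act_theRay' (h : IsHorseshoe S f) (θ : (ℝ × ℝ) ≃ₜ (ℝ × ℝ)) (hθ : θ '' Q = Q) :
    act (θ * f * θ⁻¹) (image_Lam _) (theRay' h θ hθ).cls = (theRay' h θ hθ).cls := by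
  rw [act_cls, cls_eq_iff, map_image]
  have h1 : (theRay' h θ hθ).image = ext θ '' hray (xs S) (ys S) := by
    unfold theRay'
    rw [cast_image, transport_image, theRay_image]
  rw [h1]
  have h2 := isotopic_transport (isotopic_symm (main_isotopic h)) θ
  rw [Lam_conj f θ hθ] at h2
  have h3 : ext (θ * f * θ⁻¹) '' (ext θ '' hray (xs S) (ys S))
      = ext θ '' (ext f '' hray (xs S) (ys S)) := by
    rw [image_image, image_image]
    have : ∀ x, ext (θ * f * θ⁻¹) (ext θ x) = ext θ (ext f x) := by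
      intro x
      induction x using OnePoint.rec with
      | infty => rfl
      | coe z =>
        rw [ext_coe, ext_coe, ext_coe, ext_coe]
        show ((θ (f (θ.symm (θ z))) : ℝ × ℝ) : S2) = _
        rw [Homeomorph.symm_apply_apply]
    simp only [this]
  rw [h3]
  exact h2

lemma iter_fixed {V : Type*} {G : SimpleGraph V} (φ : G ≃g G) {v : V} (hv : φ v = v) (n : ℕ) :
    φ^[n] v = v := Function.iterate_fixed hv n

lemma dist_map_le {V : Type*} {G : SimpleGraph V} (φ : G ≃g G) {v w : V}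
    (h : G.Reachable v w) : G.dist (φ v) (φ w) ≤ G.dist v w := by
  obtain ⟨p, hp⟩ := h.exists_walk_length_eq_dist
  rw [← hp, ← SimpleGraph.Walk.length_map φ.toHom p]
  exact SimpleGraph.dist_le _

lemma iter_reach {V : Type*} {G : SimpleGraph V} (φ : G ≃g G) {v w : V} (h : G.Reachable v w)
    (n : ℕ) : G.Reachable (φ^[n] v) (φ^[n] w) ∧ G.dist (φ^[n] v) (φ^[n] w) ≤ G.dist v w := by
  induction n with
  | zero => exact ⟨h, le_rfl⟩
  | succ n ih =>
    rw [Function.iterate_succ_apply', Function.iterate_succ_apply']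
    exact ⟨SimpleGraph.Iso.reachable_iff.2 ih.1, (dist_map_le φ ih.1).trans ih.2⟩

lemma dist_iter_le {V : Type*} {G : SimpleGraph V} (φ : G ≃g G) {v w : V} (hv : φ v = v)
    (h : G.Reachable v w) (n : ℕ) : G.dist w (φ^[n] w) ≤ 2 * G.dist v w := by
  obtain ⟨h1, h2⟩ := iter_reach φ h n
  rw [iter_fixed φ hv] at h1 h2
  have h3 := h.symm.dist_triangle_left (φ^[n] w)
  rw [SimpleGraph.dist_comm (u := w) (v := v)] at h3
  omega

end Pool.Agent.W5h69.HS
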