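import Mathlib
import Pool.Agent.W5h69.Horseshoe

/-!
# An explicit horseshoe homeomorphism of the plane
-/

open Set Filter Topology

namespace Pool.Agent.W5h69.HSEx

open Pool.Agent.W5h69.HS

/-- horizontal shear -/
def shX (φ : ℝ → ℝ) (hφ : Continuous φ) : (ℝ × ℝ) ≃ₜ (ℝ × ℝ) where
  toFun p := (p.1 + φ p.2, p.2)
  invFun p := (p.1 - φ p.2, p.2)
  left_inv p := by simp
  right_inv p := by simp
  continuous_toFun := by fun_prop
  continuous_invFun := by fun_prop

/-- vertical shear -/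
def shY (φ : ℝ → ℝ) (hφ : Continuous φ) : (ℝ × ℝ) ≃ₜ (ℝ × ℝ) where
  toFun p := (p.1, p.2 + φ p.1)
  invFun p := (p.1, p.2 - φ p.1)
  left_inv p := by simp
  right_inv p := by simp
  continuous_toFun := by fun_prop
  continuous_invFun := by fun_prop

/-- the affine contraction / expansion -/
noncomputable def hD : (ℝ × ℝ) ≃ₜ (ℝ × ℝ) where
  toFun p := (1 / 5 + p.1 / 5, 5 * p.2 - 1)
  invFun p := (5 * p.1 - 1, (p.2 + 1) / 5)
  left_inv p := by
    ext <;> simp
    ring
  right_inv p := by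
    ext <;> simp <;> ring
  continuous_toFun := by fun_prop
  continuous_invFun := by fun_prop

/-- a rotation -/
noncomputable def hA : (ℝ × ℝ) ≃ₜ (ℝ × ℝ) where
  toFun p := (p.2 + 7 / 5, 16 / 5 - p.1)
  invFun p := (16 / 5 - p.2, p.1 - 7 / 5)
  left_inv p := by ext <;> simp
  right_inv p := by ext <;> simp
  continuous_toFun := by fun_prop
  continuous_invFun := by fun_prop

/-- piecewise linear functions -/
noncomputable def phi1 (Y : ℝ) : ℝ := max (-Y) (min (11 / 5 * Y - 16 / 5) (Y - 4 / 5))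
/-- second -/
noncomputable def psi2 (X : ℝ) : ℝ := -|X - 7 / 5|
/-- third -/
noncomputable def phi3 (Y : ℝ) : ℝ := |Y - 9 / 5|
/-- fourth -/
noncomputable def psi4 (X : ℝ) : ℝ := -(min (max (3 / 14 * (X - 2 / 5)) 0) (3 / 5))
/-- squeeze -/
noncomputable def kap (X : ℝ) : ℝ := max (min X (2 / 5 + (X - 2 / 5) / 14)) (X - 13 / 5)
/-- its inverse -/
noncomputable def kinv (z : ℝ) : ℝ := min (max z (2 / 5 + 14 * (z - 2 / 5))) (z + 13 / 5)

lemma kinv_kap (X : ℝ) : kinv (kap X) = X := by
  unfold kinv kap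
  rcases le_total X (2 / 5 + (X - 2 / 5) / 14) with h1 | h1
  · rw [min_eq_left h1, max_eq_left (show X - 13 / 5 ≤ X by linarith),
      max_eq_left (show 2 / 5 + 14 * (X - 2 / 5) ≤ X by linarith),
      min_eq_left (by linarith)]
  · rw [min_eq_right h1]
    rcases le_total (2 / 5 + (X - 2 / 5) / 14) (X - 13 / 5) with h2 | h2
    · rw [max_eq_right h2, max_eq_right (by linarith), min_eq_right (by linarith)]
      ring
    · rw [max_eq_left h2, max_eq_right (by linarith), min_eq_left (by linarith)]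
      ring

lemma kap_kinv (z : ℝ) : kap (kinv z) = z := by
  unfold kinv kap
  rcases le_total z (2 / 5 + 14 * (z - 2 / 5)) with h1 | h1
  · rw [max_eq_right h1]
    rcases le_total (2 / 5 + 14 * (z - 2 / 5)) (z + 13 / 5) with h2 | h2
    · rw [min_eq_left h2, min_eq_right (by linarith), max_eq_left (by linarith)]
      ring
    · rw [min_eq_right h2, min_eq_right (by linarith), max_eq_right (by linarith)]
      ring
  · rw [max_eq_left h1, min_eq_left (show z ≤ z + 13 / 5 by linarith),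
      min_eq_left (show z ≤ 2 / 5 + (z - 2 / 5) / 14 by linarith),
      max_eq_left (by linarith)]

lemma continuous_kap : Continuous kap := by
  unfold kap
  fun_prop

lemma continuous_kinv : Continuous kinv := by
  unfold kinv
  fun_prop

/-- horizontal squeeze -/
noncomputable def hK : (ℝ × ℝ) ≃ₜ (ℝ × ℝ) where
  toFun p := (kap p.1, p.2)
  invFun p := (kinv p.1, p.2)
  left_inv p := by ext <;> simp [kinv_kap]
  right_inv p := by ext <;> simp [kap_kinv]
  continuous_toFun := (continuous_kap.comp continuous_fst).prodMk continuous_snd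
  continuous_invFun := (continuous_kinv.comp continuous_fst).prodMk continuous_snd

lemma cont_phi1 : Continuous phi1 := by unfold phi1; fun_prop
lemma cont_psi2 : Continuous psi2 := by unfold psi2; fun_prop
lemma cont_phi3 : Continuous phi3 := by unfold phi3; fun_prop
lemma cont_psi4 : Continuous psi4 := by unfold psi4; fun_prop

/-- the fold -/
noncomputable def fold : (ℝ × ℝ) ≃ₜ (ℝ × ℝ) :=
  (((((shX phi1 cont_phi1).trans (shY psi2 cont_psi2)).trans (shX phi3 cont_phi3)).trans hA).trans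
    (shY psi4 cont_psi4)).trans hK

lemma fold_apply (X Y : ℝ) : fold (X, Y) =
    (kap (Y + psi2 (X + phi1 Y) + 7 / 5),
      16 / 5 - (X + phi1 Y + phi3 (Y + psi2 (X + phi1 Y))) +
        psi4 (Y + psi2 (X + phi1 Y) + 7 / 5)) := rfl

lemma phi1_low {Y : ℝ} (h : Y ≤ 1) : phi1 Y = -Y := by
  unfold phi1
  rw [min_eq_left (by linarith), max_eq_left (by linarith)]

lemma phi1_mid {Y : ℝ} (h : 1 ≤ Y) (h2 : Y ≤ 2) : phi1 Y = 11 / 5 * Y - 16 / 5 := by
  unfold phi1
  rw [min_eq_left (by linarith), max_eq_right (by linarith)]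

lemma phi1_high {Y : ℝ} (h : 2 ≤ Y) : phi1 Y = Y - 4 / 5 := by
  unfold phi1
  rw [min_eq_right (by linarith), max_eq_right (by linarith)]

lemma fold_low {X Y : ℝ} (hX : X ≤ 2 / 5) (hY : Y ≤ 1) (hXY : X - Y ≤ 7 / 5) :
    fold (X, Y) = (X, Y) := by
  rw [fold_apply, phi1_low hY]
  have h1 : psi2 (X + -Y) = X - Y - 7 / 5 := by
    unfold psi2
    rw [abs_of_nonpos (by linarith)]; ring
  rw [h1]
  have h2 : Y + (X - Y - 7 / 5) + 7 / 5 = X := by ring
  rw [h2]
  have h3 : phi3 (Y + (X - Y - 7 / 5)) = 16 / 5 - X := by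
    unfold phi3
    rw [abs_of_nonpos (by linarith)]; ring
  rw [h3]
  have h4 : psi4 X = 0 := by
    unfold psi4
    rw [max_eq_right (by linarith), min_eq_left (by norm_num)]; simp
  rw [h4]
  have h5 : kap X = X := by
    unfold kap
    rw [min_eq_left (by linarith), max_eq_left (by linarith)]
  rw [h5]
  congr 1
  ring

lemma fold_high {X Y : ℝ} (hX0 : 1 / 5 ≤ X) (hX : X ≤ 2 / 5) (hY : 2 ≤ Y) :
    fold (X, Y) = (1 - X, 3 - Y) := by
  rw [fold_apply, phi1_high hY]
  have h1 : psi2 (X + (Y - 4 / 5)) = 11 / 5 - X - Y := by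
    unfold psi2
    rw [abs_of_nonneg (by linarith)]; ring
  rw [h1]
  have h2 : Y + (11 / 5 - X - Y) + 7 / 5 = 18 / 5 - X := by ring
  rw [h2]
  have h3 : phi3 (Y + (11 / 5 - X - Y)) = 2 / 5 - X := by
    unfold phi3
    rw [abs_of_nonneg (by linarith)]; ring
  rw [h3]
  have h4 : psi4 (18 / 5 - X) = -(3 / 5) := by
    unfold psi4
    rw [max_eq_left (by linarith), min_eq_right (by linarith)]
  rw [h4]
  have h5 : kap (18 / 5 - X) = 1 - X := by
    unfold kap
    rw [min_eq_right (by linarith), max_eq_right (by linarith)]; ring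
  rw [h5]
  congr 1
  ring

lemma psi4_ge (X : ℝ) : -(3 / 5) ≤ psi4 X := by
  unfold psi4
  have := min_le_right (max (3 / 14 * (X - 2 / 5)) 0) (3 / 5)
  linarith

lemma fold_mid {X Y : ℝ} (_hX0 : 1 / 5 ≤ X) (hX : X ≤ 2 / 5) (hY : 1 < Y) (hY2 : Y < 2) :
    1 < (fold (X, Y)).2 := by
  rw [fold_apply, phi1_mid hY.le hY2.le]
  simp only
  rcases le_total (X + (11 / 5 * Y - 16 / 5)) (7 / 5) with hc | hc
  · have h1 : psi2 (X + (11 / 5 * Y - 16 / 5)) = X + 11 / 5 * Y - 23 / 5 := by
      unfold psi2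
      rw [abs_of_nonpos (by linarith)]; ring
    rw [h1]
    rcases le_total (Y + (X + 11 / 5 * Y - 23 / 5)) (9 / 5) with hd | hd
    · have h2 : phi3 (Y + (X + 11 / 5 * Y - 23 / 5)) = 32 / 5 - X - 16 / 5 * Y := by
        unfold phi3
        rw [abs_of_nonpos (by linarith)]; ring
      rw [h2]
      have h3 : -(48 / 70 * (Y - 1)) ≤ psi4 (Y + (X + 11 / 5 * Y - 23 / 5) + 7 / 5) := by
        unfold psi4
        apply neg_le_neg
        refine (min_le_left _ _).trans ?_
        apply max_le <;> linarith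
      linarith
    · have h2 : phi3 (Y + (X + 11 / 5 * Y - 23 / 5)) = X + 16 / 5 * Y - 32 / 5 := by
        unfold phi3
        rw [abs_of_nonneg (by linarith)]; ring
      rw [h2]
      have := psi4_ge (Y + (X + 11 / 5 * Y - 23 / 5) + 7 / 5)
      linarith
  · have h1 : psi2 (X + (11 / 5 * Y - 16 / 5)) = 23 / 5 - X - 11 / 5 * Y := by
      unfold psi2
      rw [abs_of_nonneg (by linarith)]; ring
    rw [h1]
    have h2 : phi3 (Y + (23 / 5 - X - 11 / 5 * Y)) = 14 / 5 - X - 6 / 5 * Y := by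
      unfold phi3
      rw [abs_of_nonneg (by linarith)]; ring
    rw [h2]
    have := psi4_ge (Y + (23 / 5 - X - 11 / 5 * Y) + 7 / 5)
    linarith

/-- the standard strips -/
noncomputable def stdS : Strips where
  a₀ := 1 / 5
  b₀ := 2 / 5
  a₁ := 3 / 5
  b₁ := 4 / 5
  u₀ := 1 / 5
  v₀ := 2 / 5
  u₁ := 3 / 5
  v₁ := 4 / 5
  horiz := by norm_num
  vert := by norm_num

/-- a horseshoe map -/
noncomputable def hs : (ℝ × ℝ) ≃ₜ (ℝ × ℝ) := hD.trans fold

lemma hs_apply (x y : ℝ) : hs (x, y) = fold (1 / 5 + x / 5, 5 * y - 1) := rfl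

lemma hs_isHorseshoe : IsHorseshoe stdS hs where
  strip0 := by
    intro x hx y hy
    have h1 : (1 / 5 : ℝ) ≤ y := hy.1
    have h2 : y ≤ (2 / 5 : ℝ) := hy.2
    rw [hs_apply, fold_low (by linarith [hx.2]) (by linarith) (by linarith [hx.2])]
    simp only [stdS, Prod.mk.injEq]
    constructor <;> ring
  strip1 := by
    intro x hx y hy
    have h1 : (3 / 5 : ℝ) ≤ y := hy.1
    have h2 : y ≤ (4 / 5 : ℝ) := hy.2
    rw [hs_apply, fold_high (by linarith [hx.1]) (by linarith [hx.2]) (by linarith)]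
    simp only [stdS, Prod.mk.injEq]
    constructor <;> ring
  arch := by
    intro x hx y hy
    have h1 : (2 / 5 : ℝ) < y := hy.1
    have h2 : y < (3 / 5 : ℝ) := hy.2
    rw [hs_apply]
    exact fold_mid (by linarith [hx.1]) (by linarith [hx.2]) (by linarith) (by linarith)
  bottom := by
    intro x hx y hy
    have h1 : (0 : ℝ) ≤ y := hy.1
    have h2 : y < (1 / 5 : ℝ) := hy.2
    rw [hs_apply, fold_low (by linarith [hx.2]) (by linarith) (by linarith [hx.2])]
    simp only
    linarith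
  top := by
    intro x hx y hy
    have h1 : (4 / 5 : ℝ) < y := hy.1
    rw [hs_apply, fold_high (by linarith [hx.1]) (by linarith [hx.2]) (by linarith)]
    simp only
    linarith

end Pool.Agent.W5h69.HSEx
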