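import Pool.Agent.Results.MP_3d0d30_nt.ReductionsAndLargeValues
import Pool.Agent.H448R2.GC.X2

set_option autoImplicit false

open Complex MeasureTheory Set Filter Topology
open Pool.Agent.Results.MP_3d0d30_nt.ReductionsAndLargeValues

namespace Pool.Agent.W5h69.ZT

/-- the modulus of the zeta function on the critical line is Lipschitz on `[0, T]` with a constant
`A (1 + T)` -/
lemma lip : ∃ A : ℝ, 1 ≤ A ∧ ∀ T : ℝ, 0 ≤ T → ∀ s ∈ Icc (0:ℝ) T, ∀ t ∈ Icc (0:ℝ) T,
    |Z t - Z s| ≤ A * (1 + T) * |t - s| := by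
  obtain ⟨C, hC, hz⟩ := Pool.Agent.H448R2.GC.zeta_growth_mid
  refine ⟨max 1 (4 * C), le_max_left _ _, fun T hT s hs t ht => ?_⟩
  have key : ∀ u ∈ Icc (0:ℝ) T, ‖deriv riemannZeta (1 / 2 + u * I) * I‖ ≤ 4 * C * (1 + T) := by
    intro u hu
    have hre : ∀ z : ℂ, z ∈ Metric.closedBall (1 / 2 + (u:ℂ) * I) (3 / 8) →
        1 / 8 ≤ z.re ∧ z.re ≤ 7 / 8 ∧ |z.im| ≤ T + 3 / 8 := by
      intro z hz
      rw [Metric.mem_closedBall, dist_eq_norm] at hz
      have h1 := (Complex.abs_re_le_norm (z - (1 / 2 + (u:ℂ) * I))).trans hz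
      have h2 := (Complex.abs_im_le_norm (z - (1 / 2 + (u:ℂ) * I))).trans hz
      simp only [Complex.sub_re, Complex.add_re, Complex.mul_re, Complex.ofReal_re, Complex.I_re,
        Complex.ofReal_im, Complex.I_im, Complex.sub_im, Complex.add_im, Complex.mul_im] at h1 h2
      norm_num at h1 h2
      rw [abs_le] at h1 h2
      refine ⟨by linarith, by linarith, ?_⟩
      rw [abs_le]
      constructor <;> linarith [hu.1, hu.2]
    have hd : DiffContOnCl ℂ riemannZeta (Metric.ball (1 / 2 + (u:ℂ) * I) (3 / 8)) := by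
      refine DifferentiableOn.diffContOnCl_ball (U := Metric.closedBall (1 / 2 + (u:ℂ) * I) (3 / 8))
        (fun z hz' => ?_) subset_rfl
      refine (differentiableAt_riemannZeta ?_).differentiableWithinAt
      intro h
      have := (hre z hz').2.1
      rw [h] at this
      norm_num at this
    have h3 := Complex.norm_deriv_le_of_forall_mem_sphere_norm_le (c := 1 / 2 + (u:ℂ) * I)
      (R := 3 / 8) (C := C * (1 + (T + 3 / 8))) (by norm_num) hd (fun z hz' => by
        have h4 := hre z (Metric.sphere_subset_closedBall hz')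
        refine (hz z h4.1 h4.2.1).trans ?_
        have := h4.2.2
        gcongr)
    rw [norm_mul, Complex.norm_I, mul_one]
    refine h3.trans ?_
    rw [div_le_iff₀ (by norm_num)]
    nlinarith
  have h := Convex.norm_image_sub_le_of_norm_hasDerivWithin_le
    (f := fun u : ℝ => riemannZeta (1 / 2 + u * I))
    (f' := fun u : ℝ => deriv riemannZeta (1 / 2 + u * I) * I) (s := Icc (0:ℝ) T)
    (fun u _ => by
      have hne : (1 / 2 + (u:ℂ) * I) ≠ 1 := by
        intro h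
        have := congrArg Complex.re h
        simp at this
      have h1 := (differentiableAt_riemannZeta hne).hasDerivAt
      have h2 : HasDerivAt (fun v : ℝ => (1 / 2 + (v:ℂ) * I)) I u := by
        have h3 : HasDerivAt (fun v : ℝ => (v:ℂ)) 1 u := Complex.ofRealCLM.hasDerivAt
        have h4 := (h3.mul_const I).const_add (1 / 2 : ℂ)
        simpa using h4
      exact (h1.comp_of_eq u h2 rfl).hasDerivWithinAt) key (convex_Icc 0 T) hs ht
  have h5 : |Z t - Z s| ≤ ‖riemannZeta (1 / 2 + t * I) - riemannZeta (1 / 2 + s * I)‖ :=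
    abs_norm_sub_norm_le _ _
  refine (h5.trans h).trans ?_
  rw [Real.norm_eq_abs]
  have h6 : 4 * C ≤ max 1 (4 * C) := le_max_right _ _
  gcongr

/-- a large value gives a large moment -/
lemma mass {A : ℝ} (hA : 1 ≤ A) (hlip : ∀ T : ℝ, 0 ≤ T → ∀ s ∈ Icc (0:ℝ) T, ∀ t ∈ Icc (0:ℝ) T,
    |Z t - Z s| ≤ A * (1 + T) * |t - s|) {T : ℝ} (hT : 1 ≤ T) {t : ℝ} (ht : t ∈ Icc (0:ℝ) T)
    (hV : 1 ≤ Z t) {k : ℝ} (hk : 1 ≤ k) :
    (Z t / 2) ^ (2 * k) ≤ 4 * A * T * M k T := by
  set r : ℝ := 1 / (2 * A * (1 + T)) with hr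
  have hr0 : 0 < r := by positivity
  have hr1 : r ≤ 1 / 2 := by
    rw [hr]
    apply one_div_le_one_div_of_le (by norm_num)
    nlinarith
  have hlow : ∀ s ∈ Icc (0:ℝ) T, |t - s| ≤ r → Z t / 2 ≤ Z s := by
    intro s hs h
    have h1 := hlip T (by linarith) s hs t ht
    have h2 : A * (1 + T) * |t - s| ≤ 1 / 2 := by
      calc A * (1 + T) * |t - s| ≤ A * (1 + T) * r := by gcongr
        _ = 1 / 2 := by
          rw [hr]
          field_simp
    have h3 := le_abs_self (Z t - Z s)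
    linarith
  have hcont : Continuous fun s : ℝ => Z s ^ (2 * k) :=
    Z_cont.rpow_const fun x => Or.inr (by linarith)
  have hint : ∀ a b : ℝ, IntervalIntegrable (fun s : ℝ => Z s ^ (2 * k)) volume a b :=
    fun a b => hcont.intervalIntegrable a b
  obtain ⟨a, b, ha, hab, hb, hb2, hmem⟩ : ∃ a b : ℝ, 0 ≤ a ∧ a + r = b ∧ b ≤ T ∧ a ≤ b ∧
      ∀ s ∈ Icc a b, |t - s| ≤ r := by
    rcases le_total r t with h | h
    · refine ⟨t - r, t, by linarith, by ring, ht.2, by linarith, fun s hs => ?_⟩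
      rw [abs_le]
      constructor <;> linarith [hs.1, hs.2]
    · refine ⟨t, t + r, ht.1, rfl, by linarith, by linarith, fun s hs => ?_⟩
      rw [abs_le]
      constructor <;> linarith [hs.1, hs.2]
  have h1 : ∫ s in a..b, (Z t / 2) ^ (2 * k) ≤ ∫ s in a..b, Z s ^ (2 * k) := by
    apply intervalIntegral.integral_mono_on hb2 intervalIntegrable_const (hint a b)
    intro s hs
    have h2 := hlow s ⟨ha.trans hs.1, hs.2.trans hb⟩ (hmem s hs)
    exact Real.rpow_le_rpow (by linarith) h2 (by linarith)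
  have h2 : ∫ s in a..b, Z s ^ (2 * k) ≤ ∫ s in (0:ℝ)..T, Z s ^ (2 * k) := by
    apply intervalIntegral.integral_mono_interval ha hb2 hb _ (hint 0 T)
    exact Eventually.of_forall fun s => Real.rpow_nonneg (Z_nonneg s) _
  rw [intervalIntegral.integral_const, smul_eq_mul] at h1
  have h3 : b - a = r := by linarith
  rw [h3] at h1
  have h4 : r * (Z t / 2) ^ (2 * k) ≤ M k T := h1.trans h2
  have h5 : (Z t / 2) ^ (2 * k) = 2 * A * (1 + T) * (r * (Z t / 2) ^ (2 * k)) := by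
    rw [hr]
    field_simp
  rw [h5]
  have hM : 0 ≤ M k T := le_trans (by positivity) h4
  calc 2 * A * (1 + T) * (r * (Z t / 2) ^ (2 * k)) ≤ 2 * A * (1 + T) * M k T := by gcongr
    _ ≤ 4 * A * T * M k T := by
      apply mul_le_mul_of_nonneg_right _ hM
      nlinarith

/-- the inequality of Q2 for one large order bounds the zeta function -/
lemma sup_of_good {ε : ℝ} (hε : 0 < ε) : ∃ T₀ : ℝ, 1000 ≤ T₀ ∧ ∀ T : ℝ, T₀ ≤ T → ∀ k : ℝ,
    1 ≤ k → 2 / ε ≤ k → Good k T → ∀ t ∈ Icc (0:ℝ) T, Z t ≤ T ^ ε * Real.log T ^ (k / 2) := by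
  obtain ⟨A, hA, hlip⟩ := lip
  have hlim : ∀ᶠ T : ℝ in atTop, 8 * A ≤ T ^ (ε / 2) :=
    (tendsto_rpow_atTop (by positivity)).eventually_ge_atTop _
  obtain ⟨T₁, hT₁⟩ := eventually_atTop.1 hlim
  refine ⟨max T₁ 1000, le_max_right _ _, fun T hT k hk1 hk hg t ht => ?_⟩
  have hT1 := hT₁ T ((le_max_left _ _).trans hT)
  have hT2 : 1000 ≤ T := (le_max_right _ _).trans hT
  have hT0 : 0 < T := by linarith
  have hl : 1 ≤ Real.log T := by linarith [log_ge hT2]
  have hl0 : 0 < Real.log T := by linarith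
  have hX1 : 1 ≤ T ^ ε := Real.one_le_rpow (by linarith) hε.le
  have hY1 : 1 ≤ Real.log T ^ (k / 2) := Real.one_le_rpow hl (by linarith)
  rcases le_total (Z t) 1 with h | h
  · calc Z t ≤ 1 := h
      _ ≤ T ^ ε * Real.log T ^ (k / 2) := by nlinarith
  have h1 := mass hA hlip (by linarith) ht h hk1
  have h2 : (Z t / 2) ^ (2 * k) ≤ 4 * A * (T ^ (2:ℝ) * Real.log T ^ (k ^ 2)) := by
    refine h1.trans ?_
    have h3 : M k T ≤ T * Real.log T ^ (k ^ 2) := hg
    have e : T ^ (2:ℝ) = T * T := by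
      rw [Real.rpow_two]
      ring
    rw [e]
    calc 4 * A * T * M k T ≤ 4 * A * T * (T * Real.log T ^ (k ^ 2)) := by gcongr
      _ = _ := by ring
  have hk0 : 0 < 2 * k := by linarith
  have h4 : Z t / 2 ≤ (4 * A * (T ^ (2:ℝ) * Real.log T ^ (k ^ 2))) ^ (1 / (2 * k)) := by
    calc Z t / 2 = ((Z t / 2) ^ (2 * k)) ^ (1 / (2 * k)) := by
          rw [← Real.rpow_mul (by linarith), mul_one_div_cancel hk0.ne', Real.rpow_one]
      _ ≤ _ := Real.rpow_le_rpow (Real.rpow_nonneg (by linarith) _) h2 (by positivity)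
  rw [Real.mul_rpow (show 0 ≤ 4 * A by positivity)
    (show 0 ≤ T ^ (2:ℝ) * Real.log T ^ (k ^ 2) by positivity),
    Real.mul_rpow (show 0 ≤ T ^ (2:ℝ) by positivity)
    (show 0 ≤ Real.log T ^ (k ^ 2) by positivity),
    ← Real.rpow_mul hT0.le, ← Real.rpow_mul hl0.le] at h4
  have e1 : k ^ 2 * (1 / (2 * k)) = k / 2 := by
    field_simp
  have e2 : (2:ℝ) * (1 / (2 * k)) ≤ ε / 2 := by
    have h5 : 2 * (1 / (2 * k)) = 1 / k := by field_simp
    rw [h5, div_le_iff₀ (by linarith)]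
    rw [div_le_iff₀ hε] at hk
    linarith
  rw [e1] at h4
  have h6 : (4 * A) ^ (1 / (2 * k)) ≤ 4 * A := by
    calc (4 * A) ^ (1 / (2 * k)) ≤ (4 * A) ^ (1:ℝ) := by
          apply Real.rpow_le_rpow_of_exponent_le (by linarith)
          rw [div_le_one (by positivity)]
          linarith
      _ = _ := Real.rpow_one _
  have h7 : T ^ ((2:ℝ) * (1 / (2 * k))) ≤ T ^ (ε / 2) :=
    Real.rpow_le_rpow_of_exponent_le (by linarith) e2
  have h8 : T ^ ε = T ^ (ε / 2) * T ^ (ε / 2) := by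
    rw [← Real.rpow_add hT0]
    congr 1
    ring
  have h9 : Z t / 2 ≤ 4 * A * (T ^ (ε / 2) * Real.log T ^ (k / 2)) := by
    refine h4.trans ?_
    gcongr
  calc Z t ≤ 8 * A * (T ^ (ε / 2) * Real.log T ^ (k / 2)) := by linarith
    _ ≤ T ^ (ε / 2) * (T ^ (ε / 2) * Real.log T ^ (k / 2)) := by gcongr
    _ = _ := by rw [h8]; ring

/-- a bound of the zeta function gives the inequality of Q2 -/
lemma good_of_sup {T k : ℝ} (hT : 1000 ≤ T) (hk : 2 ≤ k)
    (h : ∀ t ∈ Icc (0:ℝ) T, Z t ≤ Real.log T ^ ((k + 2) / 2)) : Good k T :=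
  reflect hT h (by norm_num) (good_two T hT) hk (by linarith)

lemma tend_ratio : Tendsto (fun T : ℝ => Real.log T / Real.log (Real.log T)) atTop atTop := by
  have h1 : Tendsto (fun x : ℝ => Real.log x / x) atTop (𝓝 0) := by
    have := Real.isLittleO_log_id_atTop.tendsto_div_nhds_zero
    simpa using this
  have h2 : Tendsto (fun x : ℝ => Real.log x / x) atTop (𝓝[>] 0) := by
    refine tendsto_nhdsWithin_iff.2 ⟨h1, ?_⟩
    filter_upwards [eventually_gt_atTop 1] with x hx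
    exact div_pos (Real.log_pos hx) (by linarith)
  have h3 := h2.inv_tendsto_nhdsGT_zero
  have h4 : Tendsto (fun x : ℝ => x / Real.log x) atTop atTop := by
    refine h3.congr fun x => ?_
    simp [inv_div]
  exact h4.comp Real.tendsto_log_atTop

/-- a bound of the zeta function for large `t` gives a bound on `[0, T]` -/
lemma sup_of_exp {a b : ℝ} (ha : 0 ≤ a) (hab : a < b)
    (h : ∃ t₀ : ℝ, ∀ t : ℝ, t₀ ≤ t → Z t ≤ t ^ a) :
    ∃ T₀ : ℝ, 1000 ≤ T₀ ∧ ∀ T : ℝ, T₀ ≤ T → ∀ t ∈ Icc (0:ℝ) T, Z t ≤ T ^ b := by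
  obtain ⟨t₀, ht₀⟩ := h
  obtain ⟨C, hC⟩ := (isCompact_Icc (a := (0:ℝ)) (b := t₀)).exists_bound_of_continuousOn
    Z_cont.continuousOn
  have hlim : ∀ᶠ T : ℝ in atTop, C ≤ T ^ b :=
    (tendsto_rpow_atTop (by linarith)).eventually_ge_atTop C
  obtain ⟨T₁, hT₁⟩ := eventually_atTop.1 hlim
  refine ⟨max T₁ 1000, le_max_right _ _, fun T hT t ht => ?_⟩
  have hT1 : T₁ ≤ T := (le_max_left _ _).trans hT
  have hT2 : 1000 ≤ T := (le_max_right _ _).trans hT
  rcases le_total t t₀ with h | h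
  · have h1 := hC t ⟨ht.1, h⟩
    rw [Real.norm_of_nonneg (Z_nonneg t)] at h1
    exact h1.trans (hT₁ T hT1)
  · calc Z t ≤ t ^ a := ht₀ t h
      _ ≤ T ^ a := Real.rpow_le_rpow ht.1 ht.2 ha
      _ ≤ T ^ b := Real.rpow_le_rpow_of_exponent_le (by linarith) hab.le

/-- powers of `T` and of `log T` -/
lemma rpow_le_log {T x y : ℝ} (hT : 1000 ≤ T)
    (h : x * Real.log T ≤ y * Real.log (Real.log T)) : T ^ x ≤ Real.log T ^ y := by
  have hl0 : 0 < Real.log T := by linarith [log_ge hT]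
  rw [Real.rpow_def_of_pos hl0, Real.rpow_def_of_pos (by linarith)]
  apply Real.exp_le_exp.2
  linarith

lemma log_le_rpow {T x y : ℝ} (hT : 1000 ≤ T)
    (h : y * Real.log (Real.log T) ≤ x * Real.log T) : Real.log T ^ y ≤ T ^ x := by
  have hl0 : 0 < Real.log T := by linarith [log_ge hT]
  rw [Real.rpow_def_of_pos hl0, Real.rpow_def_of_pos (by linarith)]
  apply Real.exp_le_exp.2
  linarith

end Pool.Agent.W5h69.ZT
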