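import Pool.Agent.W5h69.ZT
import Pool.Agent.H983R4.LH.P5

set_option autoImplicit false

open Complex MeasureTheory Set Filter Topology
open Pool.Agent.Results.MP_3d0d30_nt.ReductionsAndLargeValues

namespace Pool.Agent.W5h69.ZT

/-- the inequality of Q2 for a fixed order bounds the order of the zeta function -/
lemma sup_of_fixed {k : ℝ} (hk : 1 ≤ k) (h : ∃ T₀ : ℝ, ∀ T : ℝ, T₀ ≤ T → Good k T) {ε : ℝ}
    (hε : 0 < ε) : ∃ t₀ : ℝ, ∀ t : ℝ, t₀ ≤ t → Z t ≤ t ^ (1 / (2 * k) + ε) := by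
  have hk0 : 0 < k := by linarith
  obtain ⟨T₀, hT₀⟩ := h
  obtain ⟨δ, hδ, T₁, hT₁, hloc⟩ := Pool.Agent.H983R4.LH.main_local (κ := 1 / (2 * k) + ε / 2)
    (μ := 1 / (2 * k) + ε) (by positivity) (by linarith)
  have hlim : ∀ᶠ x : ℝ in atTop, ‖Real.log x ^ (k ^ 2)‖ ≤
      (δ / (4 * 2 ^ (k * ε))) * ‖x ^ (k * ε)‖ :=
    (isLittleO_log_rpow_rpow_atTop (k ^ 2) (show 0 < k * ε by positivity)).bound
      (by positivity)
  obtain ⟨T₂, hT₂⟩ := eventually_atTop.1 hlim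
  refine ⟨max (max T₀ T₁) (max T₂ 1000), fun T hT => ?_⟩
  have h0 : T₀ ≤ T := (le_max_left _ _).trans ((le_max_left _ _).trans hT)
  have h1 : T₁ ≤ T := (le_max_right _ _).trans ((le_max_left _ _).trans hT)
  have h2 : T₂ ≤ T := (le_max_left _ _).trans ((le_max_right _ _).trans hT)
  have h3 : 1000 ≤ T := (le_max_right _ _).trans ((le_max_right _ _).trans hT)
  have hT0 : 0 < T := by linarith
  by_contra hcon
  push Not at hcon
  have h4 := hloc T h1 1 one_pos le_rfl hcon.le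
  rw [mul_one] at h4
  have hl : 0 < Real.log (2 * T) := Real.log_pos (by linarith)
  have h5 := hT₂ (2 * T) (by linarith)
  rw [Real.norm_of_nonneg (by positivity), Real.norm_of_nonneg (by positivity),
    Real.mul_rpow (by norm_num) hT0.le] at h5
  have h6 : Real.log (2 * T) ^ (k ^ 2) ≤ δ / 4 * T ^ (k * ε) := by
    refine h5.trans (le_of_eq ?_)
    have : (0:ℝ) < 2 ^ (k * ε) := by positivity
    field_simp
  have hsub : Pool.Agent.H983R4.LH.Ex (1 / (2 * k) + ε / 2) T 1 ⊆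
      Pool.Agent.R356.RG4.Large Z (T ^ (1 / (2 * k) + ε / 2)) (2 * T) := by
    intro x hx
    have h7 := abs_le.1 hx.1
    exact ⟨⟨by linarith, by linarith⟩, hx.2⟩
  have hfin : volume (Pool.Agent.R356.RG4.Large Z (T ^ (1 / (2 * k) + ε / 2)) (2 * T)) ≠ ⊤ := by
    refine ne_top_of_le_ne_top ?_ (measure_mono (Pool.Agent.R356.RG4.large_sub _ _))
    rw [Real.volume_Icc]
    exact ENNReal.ofReal_ne_top
  have h8 : δ ≤ volume.real
      (Pool.Agent.R356.RG4.Large Z (T ^ (1 / (2 * k) + ε / 2)) (2 * T)) := by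
    have h9 : ENNReal.ofReal δ ≤
        volume (Pool.Agent.R356.RG4.Large Z (T ^ (1 / (2 * k) + ε / 2)) (2 * T)) :=
      h4.le.trans (measure_mono hsub)
    have h10 := ENNReal.toReal_mono hfin h9
    rwa [ENNReal.toReal_ofReal hδ.le] at h10
  have h11 := Pool.Agent.R356.RG4.large_vol Z_cont Z_nonneg
    (V := T ^ (1 / (2 * k) + ε / 2)) (T := 2 * T) (p := 2 * k)
    (Real.rpow_nonneg hT0.le _) (by linarith) (by linarith)
  have h12 : ∫ t in (0:ℝ)..(2 * T), Z t ^ (2 * k) ≤ 2 * T * Real.log (2 * T) ^ (k ^ 2) :=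
    hT₀ (2 * T) (by linarith)
  have e : (T ^ (1 / (2 * k) + ε / 2)) ^ (2 * k) = T * T ^ (k * ε) := by
    rw [← Real.rpow_mul hT0.le]
    have e1 : (1 / (2 * k) + ε / 2) * (2 * k) = 1 + k * ε := by
      field_simp
    rw [e1, Real.rpow_add hT0, Real.rpow_one]
  rw [e] at h11
  have hP : 0 < T * T ^ (k * ε) := by positivity
  have h13 : T * T ^ (k * ε) * δ ≤ 2 * T * (δ / 4 * T ^ (k * ε)) := by
    calc T * T ^ (k * ε) * δ ≤ T * T ^ (k * ε) * volume.real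
          (Pool.Agent.R356.RG4.Large Z (T ^ (1 / (2 * k) + ε / 2)) (2 * T)) := by gcongr
      _ ≤ ∫ t in (0:ℝ)..(2 * T), Z t ^ (2 * k) := h11
      _ ≤ 2 * T * Real.log (2 * T) ^ (k ^ 2) := h12
      _ ≤ 2 * T * (δ / 4 * T ^ (k * ε)) := by gcongr
  nlinarith

end Pool.Agent.W5h69.ZT
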